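import Mathlib

set_option autoImplicit false
set_option linter.unusedSimpArgs false
set_option linter.unnecessarySimpa false
set_option linter.unusedVariables false

open MvPolynomial

namespace Pool.Agent.Lib.MP_5c1225_ag

/-- linear form with coefficient vector `z`. -/
noncomputable def lf {A σ : Type} [CommRing A] [Fintype σ] (z : σ → A) : MvPolynomial σ A :=
  ∑ i, z i • X i

lemma sum_pow_prime {B ι : Type} [CommRing B] {p : ℕ} (hp : p.Prime) (e : ℕ) (s : Finset ι)
    (f : ι → B) : ∃ r, (∑ i ∈ s, f i) ^ p ^ e = ∑ i ∈ s, f i ^ p ^ e + p * r := by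
  classical
  induction s using Finset.induction_on with
  | empty =>
    refine ⟨0, ?_⟩
    simp [hp.ne_zero]
  | insert a s ha ih =>
    obtain ⟨r, hr⟩ := ih
    obtain ⟨t, ht⟩ := exists_add_pow_prime_pow_eq hp (f a) (∑ i ∈ s, f i) e
    refine ⟨r + f a * (∑ i ∈ s, f i) * t, ?_⟩
    rw [Finset.sum_insert ha, Finset.sum_insert ha, ht, hr]
    ring

lemma lf_isHomogeneous {A σ : Type} [CommRing A] [Fintype σ] (z : σ → A) :
    (lf z).IsHomogeneous 1 := by
  unfold lf
  apply IsHomogeneous.sum
  intro i _
  rw [smul_eq_C_mul]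
  have := (isHomogeneous_C σ (z i)).mul (isHomogeneous_X A i)
  simpa using this

/-- The key step: from `a`-th powers to `a q`-th powers modulo `p`. -/
lemma key_result {A σ ι : Type} [CommRing A] [Fintype σ] [Fintype ι] (z : ι → σ → A) (a : ℕ)
    (hspan : ∀ β : σ →₀ ℕ, β.degree = a → ∃ c : ι → A,
      (monomial β 1 : MvPolynomial σ A) = ∑ i, c i • lf (z i) ^ a)
    {p : ℕ} (hp : p.Prime) (e : ℕ) (D : ℕ)
    (hD : (a - 1) * p ^ e + Fintype.card σ * (p ^ e - 1) < D) (ha : 1 ≤ a) :
    ∃ s : A, s - 1 ∈ Ideal.span {(p : A)} ∧ ∀ γ : σ →₀ ℕ, γ.degree = D →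
      s • (monomial γ 1 : MvPolynomial σ A) ∈
        Ideal.span (Set.range fun i => lf (z i) ^ (a * p ^ e)) := by
  classical
  set q := p ^ e with hq
  have hq0 : 0 < q := pow_pos hp.pos e
  set J : Ideal (MvPolynomial σ A) := Ideal.span (Set.range fun i => lf (z i) ^ (a * q)) with hJ
  set L : Submodule A (MvPolynomial σ A) :=
    Submodule.span A ((fun γ : σ →₀ ℕ => (monomial γ 1 : MvPolynomial σ A)) ''
      {γ | γ.degree = D}) with hL
  have hLfg : L.FG := Submodule.fg_span ((Finsupp.finite_of_degree_eq D).image _)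
  have hom_mem : ∀ h : MvPolynomial σ A, h.IsHomogeneous D → h ∈ L := by
    intro h hh
    rw [MvPolynomial.as_sum h]
    apply Submodule.sum_mem
    intro s hs
    have : monomial s (coeff s h) = coeff s h • (monomial s 1 : MvPolynomial σ A) := by
      rw [smul_monomial, smul_eq_mul, mul_one]
    rw [this]
    apply Submodule.smul_mem
    apply Submodule.subset_span
    refine ⟨s, ?_, rfl⟩
    have := hh (mem_support_iff.mp hs)
    rw [Set.mem_ofPred_eq, ← this, Finsupp.degree_eq_weight_one]
    rfl
  have hle : L ≤ J.restrictScalars A ⊔ (Ideal.span {(p : A)}) • L := by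
    rw [hL, Submodule.span_le]
    rintro _ ⟨γ, hγ, rfl⟩
    rw [Set.mem_ofPred_eq] at hγ
    set v : σ →₀ ℕ := γ.mapRange (fun x => x / q) (Nat.zero_div q) with hv
    have hvdeg : a ≤ v.degree := by
      by_contra hlt
      push Not at hlt
      have h1 : γ.degree ≤ q * v.degree + Fintype.card σ * (q - 1) := by
        rw [Finsupp.degree_eq_sum, Finsupp.degree_eq_sum, Finset.mul_sum]
        have h2 : Fintype.card σ * (q - 1) = ∑ _i : σ, (q - 1) := by simp
        rw [h2, ← Finset.sum_add_distrib]
        apply Finset.sum_le_sum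
        intro i _
        rw [hv, Finsupp.mapRange_apply]
        have := Nat.div_add_mod (γ i) q
        have := Nat.mod_lt (γ i) hq0
        omega
      have h3 : q * v.degree ≤ (a - 1) * q := by
        rw [mul_comm]; exact Nat.mul_le_mul_right _ (by omega)
      omega
    obtain ⟨β, hβv, hβ⟩ := Finsupp.exists_le_degree_eq v a hvdeg
    have hqβ : q • β ≤ γ := by
      intro i
      have h1 := hβv i
      rw [hv, Finsupp.mapRange_apply] at h1
      rw [Finsupp.smul_apply, smul_eq_mul]
      calc q * β i ≤ q * (γ i / q) := Nat.mul_le_mul_left _ h1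
        _ ≤ γ i := Nat.mul_div_le _ _
    obtain ⟨δ, hδ⟩ := exists_add_of_le hqβ
    obtain ⟨c, hc⟩ := hspan β hβ
    obtain ⟨h, hh⟩ := sum_pow_prime hp e Finset.univ (fun i => c i • lf (z i) ^ a)
    have h1 : (monomial (q • β) 1 : MvPolynomial σ A) =
        ∑ i, c i ^ q • lf (z i) ^ (a * q) + p * h := by
      have : (monomial β 1 : MvPolynomial σ A) ^ q = monomial (q • β) 1 := by
        rw [monomial_pow, one_pow]
      rw [← this, hc, hh]
      congr 1
      apply Finset.sum_congr rfl
      intro i _
      rw [smul_pow, ← pow_mul]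
    have hdegqβ : (q • β).degree = a * q := by
      rw [map_nsmul, hβ, smul_eq_mul, mul_comm]
    have h2 : (monomial (q • β) 1 : MvPolynomial σ A) =
        ∑ i, c i ^ q • lf (z i) ^ (a * q) + p * homogeneousComponent (a * q) h := by
      have hm : (monomial (q • β) (1 : A)).IsHomogeneous (a * q) :=
        isHomogeneous_monomial 1 hdegqβ
      have hs : (∑ i, c i ^ q • lf (z i) ^ (a * q)).IsHomogeneous (a * q) := by
        apply IsHomogeneous.sum
        intro i _
        rw [smul_eq_C_mul]
        have h3 := (lf_isHomogeneous (z i)).pow (a * q)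
        have h4 := (isHomogeneous_C σ (c i ^ q)).mul h3
        simpa using h4
      have h5 := congrArg (homogeneousComponent (a * q)) h1
      rw [map_add, homogeneousComponent_of_mem (n := a * q) (m := a * q)
        ((mem_homogeneousSubmodule _ _).mpr hm), homogeneousComponent_of_mem (n := a * q)
        (m := a * q) ((mem_homogeneousSubmodule _ _).mpr hs), if_pos rfl, if_pos rfl] at h5
      have hpC : (p : MvPolynomial σ A) = C (p : A) := by simp
      rw [hpC, homogeneousComponent_C_mul, ← hpC] at h5
      exact h5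
    have hmul : (monomial γ 1 : MvPolynomial σ A) = monomial (q • β) 1 * monomial δ 1 := by
      rw [monomial_mul, one_mul, hδ]
    have hdeg : a * q + δ.degree = D := by
      rw [← hγ, hδ, map_add, hdegqβ]
    rw [SetLike.mem_coe]
    change (monomial γ 1 : MvPolynomial σ A) ∈ _
    rw [hmul, h2, add_mul, Finset.sum_mul]
    apply Submodule.add_mem_sup
    · rw [Submodule.restrictScalars_mem]
      apply Ideal.sum_mem
      intro i _
      rw [smul_mul_assoc, smul_eq_C_mul]
      apply Ideal.mul_mem_left
      apply Ideal.mul_mem_right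
      exact Ideal.subset_span ⟨i, rfl⟩
    · rw [mul_assoc]
      have hpC : (p : MvPolynomial σ A) * (homogeneousComponent (a * q) h * monomial δ 1) =
          (p : A) • (homogeneousComponent (a * q) h * monomial δ 1) := by
        rw [smul_eq_C_mul]; simp
      rw [hpC]
      apply Submodule.smul_mem_smul (Ideal.mem_span_singleton_self _)
      have := hom_mem (homogeneousComponent (a * q) h * monomial δ 1) (by
        rw [← hdeg]
        exact (homogeneousComponent_isHomogeneous _ _).mul (isHomogeneous_monomial 1 rfl))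
      exact this
  obtain ⟨s, hs, hsL⟩ := Submodule.exists_sub_one_mem_and_smul_le_of_fg_of_le_sup hLfg le_rfl hle
  refine ⟨s, hs, ?_⟩
  intro γ hγ
  have h1 : (monomial γ 1 : MvPolynomial σ A) ∈ L := Submodule.subset_span ⟨γ, hγ, rfl⟩
  have h2 := hsL (Submodule.smul_mem_pointwise_smul _ s L h1)
  rwa [Submodule.restrictScalars_mem] at h2

end Pool.Agent.Lib.MP_5c1225_ag
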