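import Pool.Agent.Lib.MP_5c1225_ag.Link
import Pool.Agent.Lib.MP_5c1225_ag.Frob

set_option autoImplicit false
set_option linter.unusedSimpArgs false
set_option linter.unnecessarySimpa false
set_option linter.unusedVariables false

open MvPolynomial

namespace Pool.Agent.Lib.MP_5c1225_ag

variable {σ : Type} [Fintype σ]

/-- directional derivative -/
noncomputable def Dz (z : σ → ℂ) (F : R σ) : R σ := ∑ i, z i • pderiv i F

lemma sh_Dz (z : σ → ℂ) (F : R σ) : sh z (Dz z F) = Polynomial.derivative (sh z F) := by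
  classical
  induction F using MvPolynomial.induction_on with
  | C a => simp [Dz]
  | add f g hf hg =>
    have : Dz z (f + g) = Dz z f + Dz z g := by
      simp [Dz, Finset.sum_add_distrib]
    rw [this, map_add, hf, hg, map_add, Polynomial.derivative_add]
  | mul_X f j hf =>
    have : Dz z (f * X j) = Dz z f * X j + f * C (z j) := by
      simp only [Dz, Derivation.leibniz, smul_add, Finset.sum_add_distrib, pderiv_X, smul_eq_mul]
      rw [add_comm]
      congr 1
      · rw [Finset.sum_mul]
        apply Finset.sum_congr rfl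
        intro i _
        rw [smul_mul_assoc, mul_comm (X j)]
      · rw [Finset.sum_eq_single j]
        · simp [smul_eq_C_mul, mul_comm]
        · intro b _ hb
          rw [Pi.single_eq_of_ne' hb]; simp
        · intro h; exact absurd (Finset.mem_univ j) h
    rw [this, map_add, map_mul, map_mul, hf, map_mul, Polynomial.derivative_mul, sh_X, sh_C]
    simp

lemma iterate_Dz (z : σ → ℂ) (F : R σ) (k : ℕ) :
    sh z ((Dz z)^[k] F) = Polynomial.derivative^[k] (sh z F) := by
  induction k generalizing F with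
  | zero => rfl
  | succ k ih => rw [Function.iterate_succ_apply, ih, sh_Dz, Function.iterate_succ_apply]

lemma iterate_Dz_eq_zero (z : σ → ℂ) (F : R σ) {k : ℕ} (h : K z F < k) : (Dz z)^[k] F = 0 := by
  apply sh_injective z
  rw [iterate_Dz, map_zero]
  exact Polynomial.iterate_derivative_eq_zero h

/-- the apolarity functional of `F` -/
noncomputable def phi (F : R σ) : R σ →ₗ[ℂ] ℂ :=
  (basisMonomials σ ℂ).constr ℂ (fun γ => (∏ i, ((γ i).factorial : ℂ)) * coeff γ F)

lemma phi_monomial (F : R σ) (γ : σ →₀ ℕ) :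
    phi F (monomial γ 1) = (∏ i, ((γ i).factorial : ℂ)) * coeff γ F := by
  have := (basisMonomials σ ℂ).constr_basis ℂ
    (fun γ => (∏ i, ((γ i).factorial : ℂ)) * coeff γ F) γ
  rw [coe_basisMonomials] at this
  exact this

lemma phi_zero (g : R σ) : phi (0 : R σ) g = 0 := by
  have : phi (0 : R σ) = 0 := by
    apply (basisMonomials σ ℂ).ext
    intro γ
    rw [coe_basisMonomials, phi_monomial]; simp
  rw [this]; simp

lemma fact_single (γ : σ →₀ ℕ) (i : σ) :
    (∏ j, (((γ + Finsupp.single i 1 : σ →₀ ℕ) j).factorial : ℂ)) =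
      (∏ j, ((γ j).factorial : ℂ)) * (γ i + 1) := by
  classical
  rw [← Finset.mul_prod_erase _ _ (Finset.mem_univ i),
    ← Finset.mul_prod_erase _ (fun j => ((γ j).factorial : ℂ)) (Finset.mem_univ i)]
  have h1 : ∏ j ∈ Finset.univ.erase i, (((γ + Finsupp.single i 1 : σ →₀ ℕ) j).factorial : ℂ) =
      ∏ j ∈ Finset.univ.erase i, ((γ j).factorial : ℂ) := by
    apply Finset.prod_congr rfl
    intro j hj
    have hji : i ≠ j := (Finset.ne_of_mem_erase hj).symm
    rw [Finsupp.add_apply, Finsupp.single_eq_of_ne' hji, add_zero]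
  rw [h1, Finsupp.add_apply, Finsupp.single_eq_same, Nat.factorial_succ]
  push_cast; ring

lemma phi_lf_mul (z : σ → ℂ) (F g : R σ) : phi F (lf z * g) = phi (Dz z F) g := by
  have h : (phi F).comp (LinearMap.mulLeft ℂ (lf z)) = phi (Dz z F) := by
    apply (basisMonomials σ ℂ).ext
    intro γ
    rw [coe_basisMonomials, phi_monomial]
    rw [LinearMap.comp_apply, LinearMap.mulLeft_apply]
    unfold lf Dz
    rw [Finset.sum_mul, map_sum, coeff_sum, Finset.mul_sum]
    apply Finset.sum_congr rfl
    intro i _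
    have hX : (z i • X i : R σ) * monomial γ 1 = z i • monomial (γ + Finsupp.single i 1) 1 := by
      rw [smul_mul_assoc, X, monomial_mul, one_mul, add_comm]
    rw [hX, map_smul, phi_monomial, fact_single, coeff_smul, coeff_pderiv, smul_eq_mul,
      smul_eq_mul]
    ring
  have := congrArg (fun ψ => ψ g) h
  simpa using this

lemma phi_lf_pow_mul (z : σ → ℂ) (F g : R σ) (k : ℕ) :
    phi F (lf z ^ k * g) = phi ((Dz z)^[k] F) g := by
  induction k generalizing F with
  | zero => simp
  | succ k ih => rw [pow_succ', mul_assoc, phi_lf_mul, ih, Function.iterate_succ_apply]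

lemma phi_ideal {ι : Type} [Fintype ι] (z : ι → σ → ℂ) {F : R σ} {k : ℕ}
    (hF : ∀ i, K (z i) F < k) {g : R σ}
    (hg : g ∈ Ideal.span (Set.range fun i => lf (z i) ^ k)) : phi F g = 0 := by
  have hle : ∀ g ∈ Ideal.span (Set.range fun i => lf (z i) ^ k), ∀ h : R σ, phi F (h * g) = 0 := by
    intro g hg
    refine Submodule.span_induction (p := fun g _ => ∀ h : R σ, phi F (h * g) = 0) ?_ ?_ ?_ ?_ hg
    · rintro _ ⟨i, rfl⟩ h
      simp only
      rw [mul_comm, phi_lf_pow_mul, iterate_Dz_eq_zero _ _ (hF i), phi_zero]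
    · intro h; simp
    · intro x y _ _ hx hy h
      rw [mul_add, map_add, hx, hy, add_zero]
    · intro a x _ hx h
      rw [smul_eq_mul, ← mul_assoc]; exact hx _
  have := hle g hg 1
  simpa using this

omit [Fintype σ] in
lemma sc_coeff_eq (F : R σ) (e : ℕ) : (sc F).coeff e = homogeneousComponent e F := by
  induction F using MvPolynomial.induction_on' with
  | add f g hf hg => rw [map_add, Polynomial.coeff_add, hf, hg, map_add]
  | monomial s a =>
    rw [Hd_monomial, Polynomial.coeff_C_mul, Polynomial.coeff_X_pow]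
    have hm : (monomial s a : R σ).IsHomogeneous (s.sum fun _ e => e) :=
      isHomogeneous_monomial a rfl
    rw [homogeneousComponent_of_mem ((mem_homogeneousSubmodule _ _).mpr hm)]
    split_ifs <;> simp

omit [Fintype σ] in
lemma Hd.isHomogeneous {d : ℕ} {F : R σ} (h : Hd d F) : F.IsHomogeneous d := by
  have h1 := congrArg (fun P => P.coeff d) h
  simp only [Polynomial.coeff_C_mul, Polynomial.coeff_X_pow, if_pos, mul_one] at h1
  rw [sc_coeff_eq] at h1
  rw [← h1]; exact homogeneousComponent_isHomogeneous _ _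

lemma exists_phi_ne_zero {d : ℕ} {F : R σ} (h : Hd d F) (h0 : F ≠ 0) :
    ∃ γ : σ →₀ ℕ, γ.degree = d ∧ phi F (monomial γ 1) ≠ 0 := by
  obtain ⟨γ, hγ⟩ := MvPolynomial.ne_zero_iff.mp h0
  refine ⟨γ, ?_, ?_⟩
  · have := h.isHomogeneous hγ
    rw [← this, Finsupp.degree_eq_weight_one]; rfl
  · rw [phi_monomial]
    apply mul_ne_zero _ hγ
    apply Finset.prod_ne_zero_iff.mpr
    intro i _
    exact_mod_cast Nat.factorial_ne_zero _

end Pool.Agent.Lib.MP_5c1225_ag
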