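import Mathlib

set_option autoImplicit false
set_option linter.unusedSimpArgs false
set_option linter.unnecessarySimpa false
set_option linter.unusedVariables false

namespace Pool.Agent.Lib.MP_5c1225_ag

lemma isJacobsonRing_int : IsJacobsonRing ℤ := by
  rw [isJacobsonRing_iff_prime_eq]
  intro P hP
  by_cases h0 : P = ⊥
  · subst h0
    rw [eq_bot_iff]
    intro x hx
    by_contra hx0
    rw [Ideal.mem_bot] at hx0
    obtain ⟨p, hp, hpp⟩ := Nat.exists_infinite_primes (x.natAbs + 1)
    have hpi : Prime (p : ℤ) := Nat.prime_iff_prime_int.mp hpp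
    have hmax : (Ideal.span {(p : ℤ)}).IsMaximal :=
      PrincipalIdealRing.isMaximal_of_irreducible hpi.irreducible
    have hmem : x ∈ Ideal.span {(p : ℤ)} := by
      rw [Ideal.jacobson, Ideal.mem_sInf] at hx
      exact hx ⟨bot_le, hmax⟩
    rw [Ideal.mem_span_singleton] at hmem
    have h1 := Int.natAbs_dvd_natAbs.mpr hmem
    have h2 := Nat.le_of_dvd (Int.natAbs_pos.mpr hx0) h1
    simp only [Int.natAbs_natCast] at h2
    omega
  · have : P.IsMaximal := IsPrime.to_maximal_ideal h0
    exact Ideal.jacobson_eq_self_of_isMaximal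

/-- A finite set of complex numbers lies in a subring in which some prime is not invertible. -/
lemma exists_subring (S : Finset ℂ) : ∃ (A : Subalgebra ℤ ℂ) (p : ℕ), (∀ x ∈ S, x ∈ A) ∧
    p.Prime ∧ ∀ s : A, s - 1 ∈ Ideal.span {(p : A)} → s ≠ 0 := by
  let A : Subalgebra ℤ ℂ := Algebra.adjoin ℤ (S : Set ℂ)
  have hft : Algebra.FiniteType ℤ A :=
    (Subalgebra.fg_iff_finiteType A).mp (Subalgebra.fg_adjoin_finset S)
  obtain ⟨M, hM⟩ := Ideal.exists_maximal A
  let _ : Field (A ⧸ M) := Ideal.Quotient.field M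
  have hq : Algebra.FiniteType ℤ (A ⧸ M) :=
    Algebra.FiniteType.of_surjective (Ideal.Quotient.mkₐ ℤ M) (Ideal.Quotient.mkₐ_surjective ℤ M)
  have hj : IsJacobsonRing ℤ := isJacobsonRing_int
  have hfin : Module.Finite ℤ (A ⧸ M) := finite_of_finite_type_of_isJacobsonRing ℤ (A ⧸ M)
  obtain ⟨p, hp⟩ := CharP.exists (A ⧸ M)
  have hp0 : p ≠ 0 := by
    rintro rfl
    have hcz : CharZero (A ⧸ M) := CharP.charP_to_charZero _
    have hint : Algebra.IsIntegral ℤ (A ⧸ M) := inferInstance
    have hinj : Function.Injective (algebraMap ℤ (A ⧸ M)) := by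
      intro a b hab
      simpa using hab
    have hf : IsField ℤ := isField_of_isIntegral_of_isField hinj (Field.toIsField (A ⧸ M))
    exact Int.not_isField hf
  have hprime : p.Prime := (CharP.char_is_prime_or_zero (A ⧸ M) p).resolve_right hp0
  refine ⟨A, p, fun x hx => Algebra.subset_adjoin hx, hprime, ?_⟩
  rintro s hs rfl
  apply hM.ne_top
  rw [Ideal.eq_top_iff_one]
  have h1 : (p : A) ∈ M := by
    rw [← Ideal.Quotient.eq_zero_iff_mem]
    have : ((p : ℕ) : A ⧸ M) = 0 := CharP.cast_eq_zero _ p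
    simpa using this
  have h2 : (0 : A) - 1 ∈ M := (Ideal.span_singleton_le_iff_mem M).mpr h1 hs
  have h3 := M.neg_mem h2
  simpa using h3

end Pool.Agent.Lib.MP_5c1225_ag
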