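import Pool.Agent.Lib.MP_5c1225_ag.Link

set_option autoImplicit false
set_option linter.unusedSimpArgs false
set_option linter.unnecessarySimpa false
set_option linter.unusedVariables false

open MvPolynomial

namespace Pool.Agent.Lib.MP_5c1225_ag

theorem mem_of_mem_iInf {σ : Type} {Y : Finset (σ → ℂ)} {m : ℕ} {f : R σ}
    (hf : f ∈ (⨅ p ∈ Y, Ip p ^ m : Ideal (R σ))) : ∀ p ∈ Y, f ∈ Ip p ^ m := by
  intro p hp
  have h1 : (⨅ p ∈ Y, Ip p ^ m : Ideal (R σ)) ≤ Ip p ^ m := iInf₂_le p hp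
  exact h1 hf

theorem mem_iInf_of {σ : Type} {Y : Finset (σ → ℂ)} {f : R σ}
    (hf : ∀ p ∈ Y, f ∈ Ip p) : f ∈ (⨅ p ∈ Y, Ip p : Ideal (R σ)) := by
  simp only [Ideal.mem_iInf]
  exact hf

/-- `min (α, 3)`-form of Chudnovsky's inequality. -/
theorem min3 (n : ℕ) (hn : 1 ≤ n) (Y : Finset (Fin (n + 1) → ℂ)) (hne : Y.Nonempty)
    (m : ℕ) (f : R (Fin (n + 1))) (hf : f ∈ (⨅ p ∈ Y, Ip p ^ m : Ideal (R (Fin (n + 1)))))
    (h0 : f ≠ 0) (g0 : R (Fin (n + 1))) (hg0 : g0 ∈ (⨅ p ∈ Y, Ip p : Ideal (R (Fin (n + 1)))))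
    (hg0' : g0 ≠ 0) :
    ∃ g : R (Fin (n + 1)), g ∈ (⨅ p ∈ Y, Ip p : Ideal (R (Fin (n + 1)))) ∧ g ≠ 0 ∧
      m * (min g.totalDegree 3 + n - 1) ≤ n * f.totalDegree := by
  have hf' := mem_of_mem_iInf hf
  by_cases hround : ∀ W1 W2 : Submodule ℂ (Fin (n + 1) → ℂ), W1 ≠ ⊤ → W2 ≠ ⊤ →
      ∃ y ∈ Y, y ∉ W1 ∧ y ∉ W2
  · obtain ⟨D, hD1, hD2, hD3⟩ := main_bound Y hne hround h0 hf'
    refine ⟨g0, hg0, hg0', ?_⟩
    rw [Fintype.card_fin] at hD3
    obtain ⟨k, rfl⟩ := Nat.exists_eq_add_of_le hD2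
    rw [Nat.add_sub_cancel_left] at hD3
    have h1 : min g0.totalDegree 3 + n - 1 ≤ n + 2 := by omega
    calc m * (min g0.totalDegree 3 + n - 1) ≤ m * (n + 2) := Nat.mul_le_mul_left _ h1
      _ ≤ n * (m + k) := by nlinarith
      _ ≤ n * f.totalDegree := Nat.mul_le_mul_left _ hD1
  · push Not at hround
    obtain ⟨W1, W2, hW1, hW2, hcov⟩ := hround
    by_cases hspan : ∀ W : Submodule ℂ (Fin (n + 1) → ℂ), W ≠ ⊤ → ∃ y ∈ Y, y ∉ W
    · obtain ⟨D, hD1, hD2, hD3⟩ := basis_bound Y hne hspan h0 hf'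
      obtain ⟨l1, hl1, hd1, hv1⟩ := exists_linear hW1
      obtain ⟨l2, hl2, hd2, hv2⟩ := exists_linear hW2
      refine ⟨l1 * l2, ?_, mul_ne_zero hl1 hl2, ?_⟩
      · apply mem_iInf_of
        intro p hp
        by_cases h : p ∈ W1
        · exact Ideal.mul_mem_right _ _ (hv1 p h)
        · exact Ideal.mul_mem_left _ _ (hv2 p (hcov p hp h))
      · have hdeg : (l1 * l2).totalDegree ≤ 2 := (totalDegree_mul _ _).trans (by omega)
        rw [Fintype.card_fin] at hD3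
        obtain ⟨k, rfl⟩ := Nat.exists_eq_add_of_le hD2
        rw [Nat.add_sub_cancel_left] at hD3
        have h1 : min (l1 * l2).totalDegree 3 + n - 1 ≤ n + 1 := by omega
        calc m * (min (l1 * l2).totalDegree 3 + n - 1) ≤ m * (n + 1) := Nat.mul_le_mul_left _ h1
          _ ≤ n * (m + k) := by nlinarith
          _ ≤ n * f.totalDegree := Nat.mul_le_mul_left _ hD1
    · push Not at hspan
      obtain ⟨W, hW, hcov⟩ := hspan
      obtain ⟨l, hl, hd, hv⟩ := exists_linear hW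
      refine ⟨l, mem_iInf_of fun p hp => hv p (hcov p hp), hl, ?_⟩
      obtain ⟨p, hp⟩ := hne
      have h1 := K_add_le_of_mem p (hf' p hp) h0
      have h2 := natDegree_sc_le f
      have h3 : m ≤ f.totalDegree := by omega
      have h4 : min l.totalDegree 3 + n - 1 ≤ n := by omega
      calc m * (min l.totalDegree 3 + n - 1) ≤ m * n := Nat.mul_le_mul_left _ h4
        _ = n * m := mul_comm _ _
        _ ≤ n * f.totalDegree := Nat.mul_le_mul_left _ h3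

end Pool.Agent.Lib.MP_5c1225_ag
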