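import Pool.Agent.Lib.MP_5c1225_ag.Apolar
import Pool.Agent.Lib.MP_5c1225_ag.Arith

set_option autoImplicit false
set_option linter.unusedSimpArgs false
set_option linter.unnecessarySimpa false
set_option linter.unusedVariables false
set_option linter.unusedSectionVars false

open MvPolynomial

namespace Pool.Agent.Lib.MP_5c1225_ag

variable {σ : Type} [Fintype σ]

/-- `a`-th power of a linear form in terms of monomials. -/
lemma lf_pow_eq (z : σ → ℂ) (a : ℕ) :
    lf z ^ a = ∑ γ ∈ (Finsupp.finite_of_degree_eq (σ := σ) a).toFinset,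
      monomial γ ((γ.multinomial : ℂ) * γ.prod (fun r m => z r ^ m)) := by
  classical
  ext1 s
  rw [lf, coeff_linearCombination_X_pow_of_fintype, coeff_sum]
  simp only [coeff_monomial]
  rw [Finset.sum_ite_eq']
  have h : (s ∈ (Finsupp.finite_of_degree_eq (σ := σ) a).toFinset) ↔
      (s.sum (fun _ m => m) = a) := by
    rw [Set.Finite.mem_toFinset, Set.mem_ofPred_eq]; rfl
  by_cases hs : s.sum (fun _ m => m) = a
  · rw [if_pos hs, if_pos (h.mpr hs)]
  · rw [if_neg hs, if_neg (fun h' => hs (h.mp h'))]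

/-- Powers of the linear forms span if no form of degree `a` vanishes on `Y`. -/
lemma span_of_no_form (Y : Finset (σ → ℂ)) (a : ℕ)
    (hmin : ∀ G : R σ, G ≠ 0 → G.IsHomogeneous a → ∃ z ∈ Y, eval z G ≠ 0)
    (β : σ →₀ ℕ) (hβ : β.degree = a) :
    ∃ c : Y → ℂ, (monomial β 1 : R σ) = ∑ i, c i • lf (i : σ → ℂ) ^ a := by
  classical
  have hmem : (monomial β 1 : R σ) ∈
      Submodule.span ℂ (Set.range fun i : Y => lf (i : σ → ℂ) ^ a) := by
    by_contra hnot
    obtain ⟨φ, hφ, hle⟩ := Submodule.exists_le_ker_of_notMem hnot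
    set B := (Finsupp.finite_of_degree_eq (σ := σ) a).toFinset with hB
    set G : R σ := ∑ γ ∈ B, monomial γ ((γ.multinomial : ℂ) * φ (monomial γ 1)) with hG
    have hGhom : G.IsHomogeneous a := by
      apply IsHomogeneous.sum
      intro γ hγ
      rw [hB, Set.Finite.mem_toFinset, Set.mem_ofPred_eq] at hγ
      exact isHomogeneous_monomial _ hγ
    have hG0 : G ≠ 0 := by
      intro h
      have h1 := congrArg (coeff β) h
      rw [hG, coeff_sum, coeff_zero] at h1
      simp only [coeff_monomial] at h1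
      rw [Finset.sum_ite_eq', if_pos (by
        rw [hB, Set.Finite.mem_toFinset, Set.mem_ofPred_eq]; exact hβ)] at h1
      rcases mul_eq_zero.mp h1 with h2 | h2
      · have : β.multinomial ≠ 0 := (Nat.multinomial_pos _ _).ne'
        exact this (by exact_mod_cast h2)
      · exact hφ h2
    obtain ⟨z, hz, hne⟩ := hmin G hG0 hGhom
    apply hne
    have h1 : φ (lf z ^ a) = 0 := hle (Submodule.subset_span ⟨⟨z, hz⟩, rfl⟩)
    rw [lf_pow_eq, map_sum] at h1
    rw [hG, map_sum, ← h1]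
    apply Finset.sum_congr rfl
    intro γ _
    have h2 : (monomial γ ((γ.multinomial : ℂ) * γ.prod (fun r m => z r ^ m)) : R σ) =
        ((γ.multinomial : ℂ) * γ.prod (fun r m => z r ^ m)) • monomial γ 1 := by
      rw [smul_monomial, smul_eq_mul, mul_one]
    rw [h2, map_smul, eval_monomial, smul_eq_mul]
    ring
  obtain ⟨c, hc⟩ := (Submodule.mem_span_range_iff_exists_fun ℂ).mp hmem
  exact ⟨c, hc.symm⟩

lemma map_lf {A B : Type} [CommRing A] [CommRing B] (φ : A →+* B) (z : σ → A) :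
    MvPolynomial.map φ (lf z) = lf (fun i => φ (z i)) := by
  unfold lf
  rw [map_sum]
  apply Finset.sum_congr rfl
  intro i _
  rw [smul_eq_C_mul, map_mul, map_C, map_X, smul_eq_C_mul]

/-- The core statement: for a suitable prime `p` and all its powers. -/
lemma core (Y : Finset (σ → ℂ)) (a : ℕ) (ha : 1 ≤ a)
    (hmin : ∀ G : R σ, G ≠ 0 → G.IsHomogeneous a → ∃ z ∈ Y, eval z G ≠ 0) :
    ∃ p : ℕ, p.Prime ∧ ∀ (e : ℕ) (F : R σ) (D : ℕ), Hd D F → F ≠ 0 →
      (∀ z ∈ Y, K z F < a * p ^ e) →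
      D ≤ (a - 1) * p ^ e + Fintype.card σ * (p ^ e - 1) := by
  classical
  have hsp := span_of_no_form Y a hmin
  -- choose coefficients
  have hchoice : ∀ β : σ →₀ ℕ, ∃ c : Y → ℂ, β.degree = a →
      (monomial β 1 : R σ) = ∑ i, c i • lf (i : σ → ℂ) ^ a := by
    intro β
    by_cases h : β.degree = a
    · obtain ⟨c, hc⟩ := hsp β h
      exact ⟨c, fun _ => hc⟩
    · exact ⟨fun _ => 0, fun h' => absurd h' h⟩
  choose c hc using hchoice
  set B := (Finsupp.finite_of_degree_eq (σ := σ) a).toFinset with hB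
  let S : Finset ℂ := (Y.biUnion fun z => Finset.univ.image z) ∪
    (B.biUnion fun β => Finset.univ.image (c β))
  obtain ⟨A, p, hSA, hp, hs⟩ := exists_subring S
  refine ⟨p, hp, ?_⟩
  intro e F D hD hF hK
  by_contra hlt
  push Not at hlt
  have hzA : ∀ (z : Y) (i : σ), (z : σ → ℂ) i ∈ A := by
    intro z i
    apply hSA
    apply Finset.mem_union_left
    rw [Finset.mem_biUnion]
    exact ⟨z, z.2, Finset.mem_image_of_mem _ (Finset.mem_univ i)⟩
  have hcA : ∀ β : σ →₀ ℕ, β.degree = a → ∀ z : Y, c β z ∈ A := by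
    intro β hβ z
    apply hSA
    apply Finset.mem_union_right
    rw [Finset.mem_biUnion]
    refine ⟨β, ?_, Finset.mem_image_of_mem _ (Finset.mem_univ z)⟩
    rw [hB, Set.Finite.mem_toFinset, Set.mem_ofPred_eq]; exact hβ
  let zA : Y → σ → A := fun z i => ⟨(z : σ → ℂ) i, hzA z i⟩
  let ι : A →+* ℂ := algebraMap A ℂ
  have hinj : Function.Injective (MvPolynomial.map (σ := σ) ι) :=
    MvPolynomial.map_injective ι Subtype.val_injective
  have hmaplf : ∀ z : Y, MvPolynomial.map ι (lf (zA z)) = lf (z : σ → ℂ) := fun z => map_lf ι (zA z)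
  have hspanA : ∀ β : σ →₀ ℕ, β.degree = a → ∃ c' : Y → A,
      (monomial β 1 : MvPolynomial σ A) = ∑ i, c' i • lf (zA i) ^ a := by
    intro β hβ
    refine ⟨fun z => ⟨c β z, hcA β hβ z⟩, ?_⟩
    apply hinj
    rw [map_monomial, map_one, hc β hβ, map_sum]
    apply Finset.sum_congr rfl
    intro z _
    rw [smul_eq_C_mul, smul_eq_C_mul, map_mul, map_C, map_pow, hmaplf]
    rfl
  obtain ⟨s, hs1, hs2⟩ := key_result zA a hspanA hp e D hlt ha
  have hs0 := hs s hs1
  obtain ⟨γ, hγ, hne⟩ := exists_phi_ne_zero hD hF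
  have h1 := Ideal.mem_map_of_mem (MvPolynomial.map ι) (hs2 γ hγ)
  rw [Ideal.map_span, ← Set.range_comp] at h1
  have h2 : MvPolynomial.map ι (s • (monomial γ 1 : MvPolynomial σ A)) =
      (ι s) • (monomial γ 1 : R σ) := by
    rw [smul_eq_C_mul, map_mul, map_C, map_monomial, map_one, smul_eq_C_mul]
  rw [h2] at h1
  have h3 : (MvPolynomial.map ι ∘ fun i : Y => lf (zA i) ^ (a * p ^ e)) =
      fun i : Y => lf (i : σ → ℂ) ^ (a * p ^ e) := by
    funext z
    simp only [Function.comp_apply, map_pow, hmaplf]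
  rw [h3] at h1
  have h4 := phi_ideal (fun i : Y => (i : σ → ℂ)) (fun i => hK i i.2) h1
  rw [map_smul, smul_eq_mul] at h4
  rcases mul_eq_zero.mp h4 with h5 | h5
  · apply hs0
    exact Subtype.ext h5
  · exact hne h5

lemma Hd.pow {d : ℕ} {F : R σ} (h : Hd d F) (N : ℕ) : Hd (N * d) (F ^ N) := by
  unfold Hd at *
  rw [map_pow, h, mul_pow, map_pow, ← pow_mul, mul_comm d N]

lemma K_pow (z : σ → ℂ) {F : R σ} (hF : F ≠ 0) (N : ℕ) : K z (F ^ N) = N * K z F := by
  unfold K
  rw [map_pow, Polynomial.natDegree_pow]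

/-- The asymptotic form. -/
lemma asymp (Y : Finset (σ → ℂ)) (a n : ℕ) (hn : Fintype.card σ = n + 1) (ha : 1 ≤ a)
    (hmin : ∀ G : R σ, G ≠ 0 → G.IsHomogeneous a → ∃ z ∈ Y, eval z G ≠ 0)
    {F : R σ} {D k : ℕ} (hD : Hd D F) (hF : F ≠ 0) (hk : ∀ z ∈ Y, K z F ≤ k) :
    a * D ≤ (a + n) * k := by
  obtain ⟨p, hp, hcore⟩ := core Y a ha hmin
  -- first the case `1 ≤ k`
  have main : ∀ (F : R σ) (D k : ℕ), Hd D F → F ≠ 0 → (∀ z ∈ Y, K z F ≤ k) → 1 ≤ k →
      a * D ≤ (a + n) * k := by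
    intro F D k hD hF hk hk1
    by_contra hlt
    push Not at hlt
    set e := (a + n) * k * k + 1 with he
    set q := p ^ e with hq
    have hqe : e < q := Nat.lt_pow_self hp.one_lt
    set t := (q - 1) / k with ht
    have ht1 : (a + n) * k ≤ t := by
      rw [ht, Nat.le_div_iff_mul_le (by omega)]
      omega
    have ht2 : k * t ≤ q - 1 := Nat.mul_div_le _ _
    have ht3 : q - 1 < k * t + k := by
      have := Nat.lt_mul_div_succ (q - 1) (show 0 < k by omega)
      rw [← ht] at this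
      rw [Nat.mul_add, Nat.mul_one] at this
      exact this
    have h1 := hcore e (F ^ (a * t)) (a * t * D) (hD.pow _) (pow_ne_zero _ hF) (by
      intro z hz
      rw [K_pow z hF]
      calc a * t * K z F ≤ a * t * k := Nat.mul_le_mul_left _ (hk z hz)
        _ = a * (k * t) := by ring
        _ ≤ a * (q - 1) := Nat.mul_le_mul_left _ ht2
        _ < a * p ^ e := by
          rw [← hq]
          exact Nat.mul_lt_mul_of_pos_left (by omega) (by omega))
    rw [← hq, hn] at h1
    have h2 : t * ((a + n) * k + 1) ≤ t * (a * D) := Nat.mul_le_mul_left _ hlt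
    have h3 : t * (a * D) = a * t * D := by ring
    obtain ⟨q', hq'⟩ : ∃ q', q = q' + 1 := ⟨q - 1, by omega⟩
    obtain ⟨a', ha'⟩ : ∃ a', a = a' + 1 := ⟨a - 1, by omega⟩
    rw [h3] at h2
    have h4 := h2.trans h1
    rw [hq', ha'] at h4
    rw [hq'] at ht3
    rw [ha'] at ht1
    simp only [Nat.add_sub_cancel] at h4 ht3
    nlinarith
  rcases Nat.eq_zero_or_pos k with hk0 | hk0
  · subst hk0
    have h1 := main (F ^ (a + n + 1)) ((a + n + 1) * D) 1 (hD.pow _) (pow_ne_zero _ hF) (by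
      intro z hz
      rw [K_pow z hF]
      have := hk z hz
      have h0 : K z F = 0 := by omega
      rw [h0]; omega) le_rfl
    rw [Nat.mul_zero]
    rcases Nat.eq_zero_or_pos (a * D) with h | h
    · exact h.le
    · exfalso
      have h2 : (a + n + 1) * 1 ≤ (a + n + 1) * (a * D) := Nat.mul_le_mul_left _ h
      have h3 : a * ((a + n + 1) * D) = (a + n + 1) * (a * D) := by ring
      rw [h3] at h1
      omega
  · exact main F D k hD hF hk hk0

lemma mem_Ip_of_eval {G : R σ} {a : ℕ} (hG : G.IsHomogeneous a) {z : σ → ℂ}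
    (hz : eval z G = 0) : G ∈ Ip z := by
  have hHd : Hd a G := by
    unfold Hd
    ext1 e
    rw [sc_coeff_eq, Polynomial.coeff_C_mul, Polynomial.coeff_X_pow,
      homogeneousComponent_of_mem ((mem_homogeneousSubmodule _ _).mpr hG)]
    split_ifs <;> simp
  rw [RingHom.mem_ker]
  have h : (Polynomial.mapRingHom (eval z)).comp (sc : R σ →+* _) =
      MvPolynomial.eval₂Hom (Polynomial.C : ℂ →+* Polynomial ℂ)
        (fun i => Polynomial.C (z i) * Polynomial.X) := by
    apply MvPolynomial.ringHom_ext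
    · intro a; simp
    · intro i; simp
  rw [← h, RingHom.comp_apply, hHd]
  simp [hz]

/-- Chudnovsky's inequality. -/
theorem chudnovsky (n : ℕ) (Y : Finset (Fin (n + 1) → ℂ)) (hne : Y.Nonempty)
    (m : ℕ) (hm : 1 ≤ m) (f : R (Fin (n + 1)))
    (hf : ∀ p ∈ Y, f ∈ Ip p ^ m) (h0 : f ≠ 0) :
    ∃ g : R (Fin (n + 1)), (∀ p ∈ Y, g ∈ Ip p) ∧ g ≠ 0 ∧
      m * (g.totalDegree + n - 1) ≤ n * f.totalDegree := by
  classical
  -- minimal degree of a nonzero element of the ideal
  have hex : ∃ d, ∃ g : R (Fin (n + 1)), (∀ p ∈ Y, g ∈ Ip p) ∧ g ≠ 0 ∧ g.totalDegree = d :=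
    ⟨_, f, fun p hp => Ideal.pow_le_self (by omega) (hf p hp), h0, rfl⟩
  obtain ⟨g, hg, hg0, hgd⟩ := Nat.find_spec hex
  set α := Nat.find hex with hα
  have hαmin : ∀ G : R (Fin (n + 1)), (∀ p ∈ Y, G ∈ Ip p) → G ≠ 0 → α ≤ G.totalDegree :=
    fun G hG hG0 => Nat.find_min' hex ⟨G, hG, hG0, rfl⟩
  obtain ⟨p0, hp0⟩ := hne
  have hα1 : 1 ≤ α := by
    by_contra hlt
    have hz : g.totalDegree = 0 := by omega
    rw [totalDegree_eq_zero_iff_eq_C] at hz
    have h1 := hg p0 hp0
    rw [hz, RingHom.mem_ker] at h1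
    simp only [coe_eval₂Hom, eval₂_C, Polynomial.C_eq_zero] at h1
    apply hg0
    rw [hz, h1, C_0]
  refine ⟨g, hg, hg0, ?_⟩
  have hDf := natDegree_sc_le f
  obtain ⟨D, hD⟩ : ∃ D, D = (sc f).natDegree := ⟨_, rfl⟩
  rw [← hD] at hDf
  have hKm : ∀ z ∈ Y, K z f + m ≤ D := fun z hz => by
    rw [hD]; exact K_add_le_of_mem z (hf z hz) h0
  have hmD : m ≤ D := by have := hKm p0 hp0; omega
  have hmain : m * (g.totalDegree + n - 1) ≤ n * D := by
    rw [hgd]
    rcases Nat.lt_or_ge α 2 with h2 | h2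
    · have : α = 1 := by omega
      rw [this, Nat.add_sub_cancel_left, mul_comm]
      exact Nat.mul_le_mul_left _ hmD
    · obtain ⟨a, ha⟩ : ∃ a, α = a + 1 := ⟨α - 1, by omega⟩
      have ha1 : 1 ≤ a := by omega
      have hmin : ∀ G : R (Fin (n + 1)), G ≠ 0 → G.IsHomogeneous a →
          ∃ z ∈ Y, eval z G ≠ 0 := by
        intro G hG0 hG
        by_contra hcon
        push Not at hcon
        have h3 := hαmin G (fun p hp => mem_Ip_of_eval hG (hcon p hp)) hG0
        rw [hG.totalDegree hG0] at h3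
        omega
      have hF0 : (sc f).coeff D ≠ 0 := by
        rw [hD, Polynomial.coeff_natDegree, Polynomial.leadingCoeff_ne_zero, Ne,
          map_eq_zero_iff _ sc_injective]
        exact h0
      have h4 := asymp Y a n (Fintype.card_fin _) ha1 hmin (Hd_sc_coeff f D) hF0
        (k := D - m) (fun z hz => by
          have h5 := K_sc_coeff_le z f D
          have h6 := hKm z hz
          omega)
      obtain ⟨k, hk⟩ := Nat.exists_eq_add_of_le hmD
      rw [hk, Nat.add_sub_cancel_left] at h4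
      rw [hk, ha]
      have h7 : a + 1 + n - 1 = a + n := by omega
      rw [h7]
      nlinarith
  exact hmain.trans (Nat.mul_le_mul_left _ hDf)

end Pool.Agent.Lib.MP_5c1225_ag
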