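import Pool.Agent.Lib.MP_5c1225_ag.Res

set_option autoImplicit false
set_option linter.unusedSimpArgs false
set_option linter.unnecessarySimpa false

open MvPolynomial

namespace Pool.Agent.Lib.MP_5c1225_ag

variable {σ : Type}

/-- the automorphism `x ↦ x + T y`, `T ↦ T`. -/
noncomputable def tau (y : σ → ℂ) : Polynomial (R σ) →+* Polynomial (R σ) :=
  Polynomial.eval₂RingHom (R := R σ) (S := Polynomial (R σ)) (sh y) Polynomial.X

lemma tau_C (y : σ → ℂ) (F : R σ) : tau y (Polynomial.C F) = sh y F := by simp [tau]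

lemma tau_X (y : σ → ℂ) : tau y Polynomial.X = Polynomial.X := by simp [tau]

lemma tau_tau (y z : σ → ℂ) (h : y + z = 0) : (tau y).comp (tau z) = RingHom.id _ := by
  apply Polynomial.ringHom_ext'
  · apply MvPolynomial.ringHom_ext
    · intro a; simp [tau_C]
    · intro i
      have hi : y i + z i = 0 := congrFun h i
      have h2 : (C (y i) : R σ) = - C (z i) := by
        rw [← map_neg]; congr 1; exact eq_neg_of_add_eq_zero_left hi
      simp only [RingHom.coe_comp, Function.comp_apply, tau_C, sh_X, map_add, map_mul, tau_X,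
        sh_C, h2, RingHom.id_apply]
      rw [map_neg]; ring
  · simp [tau_X]

noncomputable def tauE (y : σ → ℂ) : Polynomial (R σ) ≃+* Polynomial (R σ) :=
  RingEquiv.ofRingHom (tau y) (tau (-y)) (tau_tau _ _ (by simp)) (tau_tau _ _ (by simp))

lemma tauE_C (y : σ → ℂ) (F : R σ) : tauE y (Polynomial.C F) = sh y F := tau_C y F

lemma prime_sh (y : σ → ℂ) {f : R σ} (hf : Prime f) : Prime (sh y f) := by
  rw [← tauE_C, MulEquiv.prime_iff (tauE y)]
  exact Polynomial.prime_C_iff.mpr hf

lemma irreducible_sh (y : σ → ℂ) {f : R σ} (hf : Irreducible f) : Irreducible (sh y f) :=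
  (prime_sh y (UniqueFactorizationMonoid.irreducible_iff_prime.mp hf)).irreducible

lemma associated_of_sh (y : σ → ℂ) {f g : R σ} (h : Associated (sh y f) (sh y g)) :
    Associated f g := by
  rw [← tauE_C, ← tauE_C] at h
  have h2 := h.map (tauE y).symm
  simp only [RingEquiv.symm_apply_apply] at h2
  obtain ⟨u, hu⟩ := h2
  have h3 := congrArg (fun P => P.coeff 0) hu
  obtain ⟨v, hv, hvu⟩ := Polynomial.isUnit_iff.mp u.isUnit
  rw [← hvu] at h3
  simp at h3
  exact ⟨hv.unit, by simpa using h3⟩

lemma coprime_frac (y : σ → ℂ) {f g : R σ} (hf : Irreducible f) (hg : Irreducible g)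
    (hfg : ¬ Associated f g) (hκ : 0 < K y f) (hl : 0 < K y g) :
    IsCoprime ((sh y f).map (algebraMap (R σ) (FractionRing (R σ))))
      ((sh y g).map (algebraMap (R σ) (FractionRing (R σ)))) := by
  let _ : NormalizedGCDMonoid (R σ) :=
    Classical.choice (inferInstance : Nonempty (NormalizedGCDMonoid (R σ)))
  have hA := irreducible_sh y hf
  have hB := irreducible_sh y hg
  have pA : (sh y f).IsPrimitive := hA.isPrimitive (by unfold K at hκ; omega)
  have hA' := (pA.irreducible_iff_irreducible_map_fraction_map (K := FractionRing (R σ))).mp hA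
  rw [hA'.coprime_iff_not_dvd]
  intro hdvd
  have hdvd2 := pA.dvd_of_fraction_map_dvd_fraction_map hdvd
  exact hfg (associated_of_sh y (hA.associated_of_dvd hB hdvd2))

lemma RR_ne_zero (y : σ → ℂ) {f g : R σ} (hf : Irreducible f) (hg : Irreducible g)
    (hfg : ¬ Associated f g) (hκ : 0 < K y f) (hl : 0 < K y g) : RR y f g ≠ 0 := by
  have h := coprime_frac y hf hg hfg hκ hl
  intro h0
  have hinj := IsFractionRing.injective (R σ) (FractionRing (R σ))
  have h2 := Polynomial.resultant_ne_zero _ _ h
  rw [Polynomial.natDegree_map_eq_of_injective hinj, Polynomial.natDegree_map_eq_of_injective hinj,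
    Polynomial.resultant_map_map] at h2
  unfold RR at h0
  rw [h0] at h2
  simp at h2

/-- The discriminant form of `f` in direction `y`. -/
noncomputable def DD (y : σ → ℂ) (f : R σ) : R σ :=
  Polynomial.resultant (Polynomial.derivative (sh y f))
    (Polynomial.C (K y f : R σ) * sh y f - Polynomial.X * Polynomial.derivative (sh y f))
    (K y f - 1) (K y f - 1)

lemma coeff_QQ (A : Polynomial (R σ)) (k j : ℕ) :
    (Polynomial.C (k : R σ) * A - Polynomial.X * Polynomial.derivative A).coeff j =
      (C ((k : ℂ) - j)) * A.coeff j := by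
  rcases j with _ | j
  · simp
  · simp [Polynomial.coeff_X_mul, Polynomial.coeff_derivative]; ring

lemma coeff_der (A : Polynomial (R σ)) (j : ℕ) :
    (Polynomial.derivative A).coeff j = (C ((j : ℂ) + 1)) * A.coeff (j + 1) := by
  simp [Polynomial.coeff_derivative]; ring

lemma K_C_mul_le (z : σ → ℂ) (a : ℂ) (F : R σ) : K z (C a * F) ≤ K z F := by
  refine (K_mul_le z _ _).trans ?_
  simp

lemma K_DD_le (y z : σ → ℂ) (f : R σ) :
    K z (DD y f) ≤ 2 * ((K y f - 1) * K z f) := by
  refine (K_resultant_le z _ _ _ _ (K z f) (K z f) ?_ ?_).trans ?_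
  · intro j; rw [coeff_der]; exact (K_C_mul_le _ _ _).trans (K_coeff_le _ _ _ _)
  · intro j; rw [coeff_QQ]; exact (K_C_mul_le _ _ _).trans (K_coeff_le _ _ _ _)
  · rw [two_mul]

lemma sc_DD (y : σ → ℂ) {f : R σ} {d : ℕ} (hf : Hd (d + 1) f) :
    sc (DD y f) * Polynomial.X ^ ((K y f - 1) * (K y f - 1)) =
      Polynomial.C (DD y f) * Polynomial.X ^ ((K y f - 1) * (d + 1) + (K y f - 1) * d) := by
  apply sc_resultant
  · intro j
    rw [coeff_der]
    have := sc_coeff hf y (j + 1)
    have hX : (Polynomial.X : Polynomial (R σ)) ≠ 0 := Polynomial.X_ne_zero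
    apply mul_right_cancel₀ hX
    rw [map_mul, sc_C, map_mul]
    calc _ = Polynomial.C (C ((j : ℂ) + 1)) *
          (sc ((sh y f).coeff (j + 1)) * Polynomial.X ^ (j + 1)) := by ring
      _ = _ := by rw [this]; ring
  · intro j
    rw [coeff_QQ]
    have := sc_coeff hf y j
    rw [map_mul, sc_C, map_mul, mul_assoc, this]; ring

lemma natDegree_QQ_le (y : σ → ℂ) (f : R σ) :
    (Polynomial.C (K y f : R σ) * sh y f -
      Polynomial.X * Polynomial.derivative (sh y f)).natDegree ≤ K y f - 1 := by
  rw [Polynomial.natDegree_le_iff_coeff_eq_zero]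
  intro j hj
  rw [coeff_QQ]
  rcases Nat.lt_or_ge (K y f) j with h | h
  · rw [Polynomial.coeff_eq_zero_of_natDegree_lt h]; simp
  · have : K y f = j := by omega
    rw [this]; simp

lemma natDegree_der (y : σ → ℂ) (f : R σ) :
    (Polynomial.derivative (sh y f)).natDegree = K y f - 1 := by
  exact Polynomial.natDegree_derivative _

lemma K_DD_self (y : σ → ℂ) (f : R σ) : K y (DD y f) = 0 := by
  rw [K_eq_zero_iff]
  set A := sh y f with hA
  set κ := K y f with hκ
  set A' := Polynomial.derivative A with hA'
  set Q := Polynomial.C (κ : R σ) * A - Polynomial.X * A' with hQ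
  have hdeg : A'.natDegree = κ - 1 := natDegree_der y f
  have h := Polynomial.resultant_map_map A' Q (κ - 1) (κ - 1) (sh y)
  have hmA : A.map (sh y) = Polynomial.taylor Polynomial.X (A.map Polynomial.C) :=
    map_sh_taylor y f
  have e1 : A'.map (sh y) = Polynomial.taylor Polynomial.X (A'.map Polynomial.C) := by
    rw [hA', ← Polynomial.derivative_map, hmA, ← Polynomial.derivative_map, Polynomial.taylor_apply,
      Polynomial.taylor_apply, Polynomial.derivative_comp]
    simp
  have e2 : Q.map (sh y) = Polynomial.taylor Polynomial.X (Q.map Polynomial.C) +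
      Polynomial.taylor Polynomial.X (A'.map Polynomial.C) * Polynomial.C Polynomial.X := by
    rw [hQ, Polynomial.map_sub, Polynomial.map_mul, Polynomial.map_mul, hmA, e1,
      Polynomial.map_sub, Polynomial.map_mul, Polynomial.map_mul]
    simp only [Polynomial.taylor_apply, Polynomial.sub_comp, Polynomial.mul_comp]
    simp
    ring
  have i2 : (A'.map (Polynomial.C : R σ →+* Polynomial (R σ))).natDegree = κ - 1 := by
    rw [Polynomial.natDegree_map_eq_of_injective Polynomial.C_injective, hdeg]
  have i3 : (Q.map (Polynomial.C : R σ →+* Polynomial (R σ))).natDegree ≤ κ - 1 := by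
    rw [Polynomial.natDegree_map_eq_of_injective Polynomial.C_injective]
    exact natDegree_QQ_le y f
  rw [e1, e2, Polynomial.resultant_add_mul_right _ _ _ _ _ (by simp)
    (by rw [Polynomial.natDegree_taylor, i2])] at h
  have h4 := resultant_taylor' (A'.map (Polynomial.C : R σ →+* Polynomial (R σ)))
    (Q.map (Polynomial.C : R σ →+* Polynomial (R σ))) Polynomial.X (κ - 1) i3
  rw [i2] at h4
  rw [h4, Polynomial.resultant_map_map] at h
  exact h.symm

lemma DD_ne_zero (y : σ → ℂ) {f : R σ} (hf : Irreducible f) (hκ : 2 ≤ K y f) : DD y f ≠ 0 := by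
  let _ : NormalizedGCDMonoid (R σ) :=
    Classical.choice (inferInstance : Nonempty (NormalizedGCDMonoid (R σ)))
  set A := sh y f with hA
  set κ := K y f with hκ
  set A' := Polynomial.derivative A with hA'
  set Q := Polynomial.C (κ : R σ) * A - Polynomial.X * A' with hQ
  have hdeg : A'.natDegree = κ - 1 := natDegree_der y f
  have irrA := irreducible_sh y hf
  have pA : (sh y f).IsPrimitive := irrA.isPrimitive (by unfold K at hκ; omega)
  have irr := (pA.irreducible_iff_irreducible_map_fraction_map (K := FractionRing (R σ))).mp irrA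
  have hinj := IsFractionRing.injective (R σ) (FractionRing (R σ))
  set φ := algebraMap (R σ) (FractionRing (R σ)) with hφ
  have hmapdeg : (A.map φ).natDegree = κ := by
    rw [Polynomial.natDegree_map_eq_of_injective hinj]; rfl
  have hA'0 : A' ≠ 0 := by
    intro h0; rw [h0] at hdeg; simp at hdeg; omega
  have hA'0' : A'.map φ ≠ 0 := by
    rwa [Ne, Polynomial.map_eq_zero_iff hinj]
  have cop : IsCoprime (A.map φ) (A'.map φ) := by
    rw [irr.coprime_iff_not_dvd]
    intro hd
    have := Polynomial.natDegree_le_of_dvd hd hA'0'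
    rw [hmapdeg, Polynomial.natDegree_map_eq_of_injective hinj, hdeg] at this
    omega
  have cop2 : IsCoprime (A'.map φ) (Q.map φ) := by
    have h1 : IsCoprime (A'.map φ) (Polynomial.C (φ (κ : R σ)) * A.map φ) := by
      apply IsCoprime.mul_right _ cop.symm
      have hu : IsUnit (Polynomial.C (φ (κ : R σ))) := by
        rw [Polynomial.isUnit_C, isUnit_iff_ne_zero, Ne, map_eq_zero_iff _ hinj]
        have : κ ≠ 0 := by omega
        exact_mod_cast this
      exact isCoprime_one_right.of_isCoprime_of_dvd_right (hu.dvd)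
    have h2 : Q.map φ = Polynomial.C (φ (κ : R σ)) * A.map φ + A'.map φ * (-Polynomial.X) := by
      rw [hQ]; simp; ring
    rw [h2]
    exact h1.add_mul_left_right _
  intro h0
  have hr := Polynomial.resultant_ne_zero _ _ cop2
  rw [Polynomial.natDegree_map_eq_of_injective hinj, Polynomial.natDegree_map_eq_of_injective hinj,
    Polynomial.resultant_map_map] at hr
  have hr' : Polynomial.resultant A' Q A'.natDegree Q.natDegree ≠ 0 := by
    intro h; rw [h] at hr; simp at hr
  have hQd : Q.natDegree ≤ κ - 1 := natDegree_QQ_le y f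
  obtain ⟨k, hk⟩ := Nat.exists_eq_add_of_le hQd
  have h5 : DD y f = Polynomial.resultant A' Q (κ - 1) (κ - 1) := rfl
  rw [h5] at h0
  nth_rewrite 2 [hk] at h0
  rw [← hdeg, Polynomial.resultant_add_right_deg _ _ _ _ k le_rfl] at h0
  rcases mul_eq_zero.mp h0 with h | h
  · exact hA'0 (Polynomial.leadingCoeff_eq_zero.mp (eq_zero_of_pow_eq_zero h))
  · exact hr' h

end Pool.Agent.Lib.MP_5c1225_ag
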