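import Pool.Agent.Lib.MP_5c1225_ag.Gauss

set_option autoImplicit false
set_option linter.unusedSimpArgs false
set_option linter.unnecessarySimpa false
set_option linter.unusedVariables false

open MvPolynomial

namespace Pool.Agent.Lib.MP_5c1225_ag

variable {σ : Type}

/-- `F` is constant in the directions of `U`. -/
def Inv (U : Submodule ℂ (σ → ℂ)) (F : R σ) : Prop := ∀ u ∈ U, K u F = 0

/-- weighted sum of the degrees `K z F`. -/
noncomputable def S (Y : Finset (σ → ℂ)) (w : (σ → ℂ) → ℝ) (F : R σ) : ℝ :=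
  ∑ z ∈ Y, w z * K z F

/-- The weighted degree inequality for all forms which are constant along `U`. -/
def Tst (Y : Finset (σ → ℂ)) (w : (σ → ℂ) → ℝ) (U : Submodule ℂ (σ → ℂ)) : Prop :=
  ∀ G : R σ, G ≠ 0 → ∀ d : ℕ, Hd d G → Inv U G → 2 * (d : ℝ) ≤ S Y w G

lemma Inv.le_vertex {U : Submodule ℂ (σ → ℂ)} {F : R σ} (h : Inv U F) : U ≤ vertex F :=
  fun u hu => mem_vertex.mpr (h u hu)

lemma Inv.sup {U : Submodule ℂ (σ → ℂ)} {F : R σ} (h : Inv U F) {y : σ → ℂ} (hy : K y F = 0) :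
    Inv (U ⊔ Submodule.span ℂ {y}) F := by
  intro u hu
  have : U ⊔ Submodule.span ℂ {y} ≤ vertex F := by
    apply sup_le h.le_vertex
    rw [Submodule.span_singleton_le_iff_mem]
    exact mem_vertex.mpr hy
  exact mem_vertex.mp (this hu)

lemma S_le (Y : Finset (σ → ℂ)) {w : (σ → ℂ) → ℝ} (hw : ∀ z, 0 ≤ w z) {F G H : R σ} {a b : ℝ}
    (h : ∀ z, (K z F : ℝ) ≤ a * K z G + b * K z H) : S Y w F ≤ a * S Y w G + b * S Y w H := by
  unfold S
  rw [Finset.mul_sum, Finset.mul_sum, ← Finset.sum_add_distrib]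
  apply Finset.sum_le_sum
  intro z _
  have := mul_le_mul_of_nonneg_left (h z) (hw z)
  linarith

lemma S_mono (Y : Finset (σ → ℂ)) {w : (σ → ℂ) → ℝ} (hw : ∀ z, 0 ≤ w z) {F G : R σ}
    (h : ∀ z, K z F ≤ K z G) : S Y w F ≤ S Y w G := by
  unfold S
  apply Finset.sum_le_sum
  intro z _
  exact mul_le_mul_of_nonneg_left (by exact_mod_cast h z) (hw z)

lemma S_congr (Y : Finset (σ → ℂ)) (w : (σ → ℂ) → ℝ) {F G : R σ}
    (h : ∀ z, K z F = K z G) : S Y w F = S Y w G := by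
  unfold S
  apply Finset.sum_congr rfl
  intro z _
  rw [h]

/-- inequality from the resultant -/
lemma ineq_res {Y : Finset (σ → ℂ)} {w : (σ → ℂ) → ℝ} (hw : ∀ z, 0 ≤ w z)
    {U : Submodule ℂ (σ → ℂ)} {y : σ → ℂ} (hT : Tst Y w (U ⊔ Submodule.span ℂ {y}))
    {f g : R σ} (hf : Irreducible f) (hg : Irreducible g) (hfg : ¬ Associated f g)
    {d e : ℕ} (hd : Hd d f) (he : Hd e g) (hUf : Inv U f) (hUg : Inv U g)
    (hκ : 0 < K y f) (hl : 0 < K y g) :
    2 * ((K y f : ℝ) * e + K y g * d - K y f * K y g) ≤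
      (K y g : ℝ) * S Y w f + K y f * S Y w g := by
  have h0 := RR_ne_zero y hf hg hfg hκ hl
  obtain ⟨hle, hH⟩ := Hd_of_mul h0 (sc_RR y hd he)
  have hI : Inv (U ⊔ Submodule.span ℂ {y}) (RR y f g) := by
    apply Inv.sup _ (K_RR_self y f g)
    intro u hu
    have := K_RR_le y u f g
    rw [hUf u hu, hUg u hu] at this
    simpa using this
  have h1 := hT _ h0 _ hH hI
  have h2 : S Y w (RR y f g) ≤ (K y g : ℝ) * S Y w f + K y f * S Y w g := by
    apply S_le Y hw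
    intro z
    exact_mod_cast K_RR_le y z f g
  rw [Nat.cast_sub hle] at h1
  push_cast at h1
  linarith

/-- inequality from the discriminant -/
lemma ineq_disc {Y : Finset (σ → ℂ)} {w : (σ → ℂ) → ℝ} (hw : ∀ z, 0 ≤ w z)
    {U : Submodule ℂ (σ → ℂ)} {y : σ → ℂ} (hT : Tst Y w (U ⊔ Submodule.span ℂ {y}))
    {f : R σ} (hf : Irreducible f) {d : ℕ} (hd : Hd d f) (hUf : Inv U f) (hκ : 2 ≤ K y f) :
    2 * (d : ℝ) ≤ S Y w f + K y f := by
  have hKd := K_le_of_Hd hd y
  obtain ⟨d', rfl⟩ : ∃ d', d = d' + 1 := ⟨d - 1, by omega⟩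
  have h0 := DD_ne_zero y hf hκ
  obtain ⟨hle, hH⟩ := Hd_of_mul h0 (sc_DD y hd)
  have hI : Inv (U ⊔ Submodule.span ℂ {y}) (DD y f) := by
    apply Inv.sup _ (K_DD_self y f)
    intro u hu
    have := K_DD_le y u f
    rw [hUf u hu] at this
    simpa using this
  have h1 := hT _ h0 _ hH hI
  obtain ⟨k, hk⟩ : ∃ k, K y f = k + 1 := ⟨K y f - 1, by omega⟩
  have h2 : S Y w (DD y f) ≤ (2 * (k : ℝ)) * S Y w f + 0 * S Y w f := by
    apply S_le Y hw
    intro z
    have := K_DD_le y z f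
    rw [hk, Nat.add_sub_cancel] at this
    have h' : (K z (DD y f) : ℝ) ≤ ((2 * (k * K z f) : ℕ) : ℝ) := by exact_mod_cast this
    push_cast at h'
    linarith
  rw [hk] at hle h1 ⊢
  rw [Nat.add_sub_cancel] at hle h1
  rw [Nat.cast_sub hle] at h1
  push_cast at h1 ⊢
  have hk0 : (0 : ℝ) < k := by
    have : 0 < k := by omega
    exact_mod_cast this
  have h3 : (2 * (k : ℝ)) * ((d' : ℝ) + 1 + d' - k) ≤ (2 * (k : ℝ)) * S Y w f := by
    nlinarith
  have h4 := le_of_mul_le_mul_left h3 (by positivity)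
  linarith

lemma ineq_der {Y : Finset (σ → ℂ)} {w : (σ → ℂ) → ℝ} (hw : ∀ z, 0 ≤ w z)
    {U : Submodule ℂ (σ → ℂ)} {y : σ → ℂ} (hT : Tst Y w (U ⊔ Submodule.span ℂ {y}))
    {f : R σ} (hf : f ≠ 0) {d : ℕ} (hd : Hd d f) (hUf : Inv U f) :
    2 * ((d : ℝ) - K y f) ≤ S Y w f := by
  have h0 := top_ne_zero y hf
  obtain ⟨hle, hH⟩ := Hd_coeff hd y _ h0
  have hI : Inv (U ⊔ Submodule.span ℂ {y}) ((sh y f).coeff (K y f)) := by
    apply Inv.sup _ (K_top y f)
    intro u hu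
    have := K_coeff_le y u f (K y f)
    rw [hUf u hu] at this
    simpa using this
  have h1 := hT _ h0 _ hH hI
  rw [Nat.cast_sub hle] at h1
  exact h1.trans (S_mono Y hw (fun z => K_coeff_le y z f _))

lemma factor_ind {Y : Finset (σ → ℂ)} {w : (σ → ℂ) → ℝ} (hw : ∀ z, 0 ≤ w z)
    {U : Submodule ℂ (σ → ℂ)}
    (h : ∀ f : R σ, Irreducible f → ∀ d : ℕ, Hd d f → Inv U f → 2 * (d : ℝ) ≤ S Y w f) :
    Tst Y w U := by
  intro G
  induction G using WfDvdMonoid.induction_on_irreducible with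
  | zero => intro h0; exact absurd rfl h0
  | unit u hu =>
    intro h0 d hd _
    have hd0 : d = 0 := by
      obtain ⟨a, ha, rfl⟩ := MvPolynomial.isUnit_iff_eq_C_of_isReduced.mp hu
      exact (Hd.unique h0 (Hd_C a) hd).symm
    subst hd0
    simp only [Nat.cast_zero, mul_zero]
    exact Finset.sum_nonneg fun z _ => mul_nonneg (hw z) (Nat.cast_nonneg _)
  | mul a i ha hi IH =>
    intro h0 d hd hU
    obtain ⟨e1, he1⟩ := Hd_of_mul_left hi.ne_zero ha hd
    obtain ⟨e2, he2⟩ := Hd_of_mul_left ha hi.ne_zero (by rwa [mul_comm] at hd)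
    have hde : d = e1 + e2 := Hd.unique h0 hd (he1.mul he2)
    have hKadd : ∀ z, K z (i * a) = K z i + K z a := fun z => K_mul z hi.ne_zero ha
    have hUi : Inv U i := fun u hu => by have := hU u hu; rw [hKadd] at this; omega
    have hUa : Inv U a := fun u hu => by have := hU u hu; rw [hKadd] at this; omega
    have h1 := h i hi e1 he1 hUi
    have h2 := IH ha e2 he2 hUa
    have h3 : S Y w (i * a) = S Y w i + S Y w a := by
      unfold S
      rw [← Finset.sum_add_distrib]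
      apply Finset.sum_congr rfl
      intro z _
      rw [hKadd]; push_cast; ring
    rw [h3, hde]; push_cast; linarith

end Pool.Agent.Lib.MP_5c1225_ag
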