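import Pool.Agent.Lib.MP_5c1225_ag.Main2

set_option autoImplicit false
set_option linter.unusedSimpArgs false
set_option linter.unnecessarySimpa false
set_option linter.unusedVariables false

open MvPolynomial

namespace Pool.Agent.Lib.MP_5c1225_ag

variable {σ : Type}

lemma Hd_monomial (s : σ →₀ ℕ) (a : ℂ) : Hd (s.sum fun _ e => e) (monomial s a : R σ) := by
  unfold Hd
  rw [MvPolynomial.monomial_eq, map_mul, sc_C, map_mul]
  have : sc (s.prod fun n e => (X n : R σ) ^ e) =
      Polynomial.C (s.prod fun n e => (X n : R σ) ^ e) * Polynomial.X ^ (s.sum fun _ e => e) := by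
    rw [map_finsuppProd, map_finsuppProd, Finsupp.sum, ← Finset.prod_pow_eq_pow_sum]
    rw [Finsupp.prod, Finsupp.prod, ← Finset.prod_mul_distrib]
    apply Finset.prod_congr rfl
    intro i _
    rw [map_pow, sc_X, map_pow, mul_pow]
  rw [this]; ring

lemma natDegree_sc_le (F : R σ) : (sc F).natDegree ≤ F.totalDegree := by
  conv_lhs => rw [MvPolynomial.as_sum F]
  rw [map_sum]
  apply Polynomial.natDegree_sum_le_of_forall_le
  intro s hs
  rw [Hd_monomial]
  refine (Polynomial.natDegree_C_mul_X_pow_le _ _).trans ?_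
  exact MvPolynomial.le_totalDegree hs

lemma natDegree_sc_coeff (z : σ → ℂ) {F : R σ} {j : ℕ} (h0 : (sh z F).coeff j ≠ 0) :
    (sc ((sh z F).coeff j)).natDegree + j ≤ (sc F).natDegree := by
  have h := congrArg (fun P => P.coeff j) (sc_sh z F)
  simp only [Polynomial.comp_C_mul_X_coeff, Polynomial.coeff_map] at h
  have hs : sc ((sh z F).coeff j) ≠ 0 := by rwa [Ne, map_eq_zero_iff _ sc_injective]
  have h2 : (sc ((sh z F).coeff j) * Polynomial.X ^ j).natDegree
      = (sc ((sh z F).coeff j)).natDegree + j := Polynomial.natDegree_mul_X_pow j hs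
  rw [← h2, h, Polynomial.natDegree_le_iff_coeff_eq_zero]
  intro e he
  rw [ext_coeff, Polynomial.coeff_eq_zero_of_natDegree_lt he]; simp

lemma Hd_sc_coeff (F : R σ) (e : ℕ) : Hd e ((sc F).coeff e) := by
  have h : (Polynomial.mapRingHom sc).comp (sc : R σ →+* _) =
      ((Polynomial.compRingHom (Polynomial.C Polynomial.X * Polynomial.X)).comp
        (Polynomial.mapRingHom (Polynomial.C : R σ →+* Polynomial (R σ)))).comp sc := by
    apply MvPolynomial.ringHom_ext
    · intro a; simp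
    · intro i; simp; ring
  have h1 := congrArg (fun φ => (φ F).coeff e) h
  simp only [RingHom.coe_comp, Function.comp_apply, Polynomial.coe_mapRingHom,
    Polynomial.coeff_map, Polynomial.coe_compRingHom_apply, Polynomial.comp_C_mul_X_coeff] at h1
  exact h1

lemma K_sc_coeff_le (z : σ → ℂ) (F : R σ) (e : ℕ) : K z ((sc F).coeff e) ≤ K z F := by
  unfold K
  rw [Polynomial.natDegree_le_iff_coeff_eq_zero]
  intro j hj
  have h := congrArg (fun P => (P.coeff j).coeff e) (sc_sh z F)
  simp only [Polynomial.comp_C_mul_X_coeff, Polynomial.coeff_map, ext_coeff] at h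
  rw [← h, Polynomial.coeff_eq_zero_of_natDegree_lt hj]; simp

/-- The ideal of a point, as in the statement of the problem. -/
noncomputable abbrev Ip (p : σ → ℂ) : Ideal (R σ) :=
  RingHom.ker (MvPolynomial.eval₂Hom (Polynomial.C : ℂ →+* Polynomial ℂ)
    (fun i => Polynomial.C (p i) * Polynomial.X))

/-- The map `f ↦ f(U x + S p)`. -/
noncomputable def Psi (p : σ → ℂ) : R σ →+* Polynomial (Polynomial (R σ)) :=
  (Polynomial.mapRingHom sc).comp (sh p)

lemma Psi_coeff (p : σ → ℂ) (f : R σ) (j : ℕ) : (Psi p f).coeff j = sc ((sh p f).coeff j) := by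
  simp [Psi]

lemma dvd_pow_aux {A B : Type} [CommRing A] [CommRing B] (φ : A →+* B) (I : Ideal A) (b : B)
    (h : ∀ f ∈ I, b ∣ φ f) (m : ℕ) : ∀ f ∈ I ^ m, b ^ m ∣ φ f := by
  have h1 : I ≤ Ideal.comap φ (Ideal.span {b}) := by
    intro f hf
    rw [Ideal.mem_comap, Ideal.mem_span_singleton]
    exact h f hf
  intro f hf
  have h2 : f ∈ Ideal.comap φ (Ideal.span {b} ^ m) :=
    Ideal.le_comap_pow _ _ (Ideal.pow_right_mono h1 m hf)
  rwa [Ideal.mem_comap, Ideal.span_singleton_pow, Ideal.mem_span_singleton] at h2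

lemma Ip_dvd (p : σ → ℂ) (f : R σ) (hf : f ∈ Ip p) :
    Polynomial.C (Polynomial.X : Polynomial (R σ)) ∣ Psi p f := by
  rw [Polynomial.C_dvd_iff_dvd_coeff]
  intro j
  rw [Polynomial.X_dvd_iff, Psi_coeff]
  have h : (Polynomial.mapRingHom ((Polynomial.constantCoeff : Polynomial (R σ) →+* R σ).comp
      sc)).comp (sh p) = (Polynomial.mapRingHom (C : ℂ →+* R σ)).comp
      (MvPolynomial.eval₂Hom (Polynomial.C : ℂ →+* Polynomial ℂ)
        (fun i => Polynomial.C (p i) * Polynomial.X)) := by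
    apply MvPolynomial.ringHom_ext
    · intro a; simp
    · intro i; simp
  have h1 := congrArg (fun φ => (φ f).coeff j) h
  have hf0 : MvPolynomial.eval₂Hom (Polynomial.C : ℂ →+* Polynomial ℂ)
        (fun i => Polynomial.C (p i) * Polynomial.X) f = 0 := hf
  simp only [RingHom.coe_comp, Function.comp_apply, hf0, map_zero, Polynomial.coeff_zero,
    Polynomial.coe_mapRingHom, Polynomial.coeff_map] at h1
  simpa using h1

lemma K_add_le_of_mem (p : σ → ℂ) {m : ℕ} {f : R σ} (hf : f ∈ Ip p ^ m) (h0 : f ≠ 0) :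
    K p f + m ≤ (sc f).natDegree := by
  have h1 := dvd_pow_aux (A := R σ) (B := Polynomial (Polynomial (R σ))) (Psi p) (Ip p)
    (Polynomial.C Polynomial.X) (Ip_dvd p) m f hf
  rw [← map_pow, Polynomial.C_dvd_iff_dvd_coeff] at h1
  have h2 := h1 (K p f)
  rw [Psi_coeff] at h2
  have h3 := top_ne_zero p h0
  have hs : sc ((sh p f).coeff (K p f)) ≠ 0 := by rwa [Ne, map_eq_zero_iff _ sc_injective]
  have h4 := Polynomial.natDegree_le_of_dvd h2 hs
  rw [Polynomial.natDegree_X_pow] at h4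
  have h5 := natDegree_sc_coeff p h3
  omega

/-- The main inequality for arbitrary polynomials. -/
theorem main_bound [Fintype σ] (Y : Finset (σ → ℂ)) (hne : Y.Nonempty)
    (H : ∀ W1 W2 : Submodule ℂ (σ → ℂ), W1 ≠ ⊤ → W2 ≠ ⊤ → ∃ y ∈ Y, y ∉ W1 ∧ y ∉ W2)
    {m : ℕ} {f : R σ} (h0 : f ≠ 0) (hf : ∀ p ∈ Y, f ∈ Ip p ^ m) :
    ∃ D, D ≤ f.totalDegree ∧ m ≤ D ∧ 2 * D ≤ (Fintype.card σ + 1) * (D - m) := by
  refine ⟨(sc f).natDegree, natDegree_sc_le f, ?_, ?_⟩
  · obtain ⟨p, hp⟩ := hne
    have := K_add_le_of_mem p (hf p hp) h0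
    omega
  · have hg : (sc f).coeff (sc f).natDegree ≠ 0 := by
      rw [Polynomial.coeff_natDegree, Polynomial.leadingCoeff_ne_zero, Ne,
        map_eq_zero_iff _ sc_injective]
      exact h0
    apply main_hom Y hne H hg (Hd_sc_coeff f _)
    intro z hz
    have h1 := K_sc_coeff_le z f (sc f).natDegree
    have h2 := K_add_le_of_mem z (hf z hz) h0
    omega

theorem basis_bound [Fintype σ] (Y : Finset (σ → ℂ)) (hne : Y.Nonempty)
    (H : ∀ W : Submodule ℂ (σ → ℂ), W ≠ ⊤ → ∃ y ∈ Y, y ∉ W)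
    {m : ℕ} {f : R σ} (h0 : f ≠ 0) (hf : ∀ p ∈ Y, f ∈ Ip p ^ m) :
    ∃ D, D ≤ f.totalDegree ∧ m ≤ D ∧ D ≤ Fintype.card σ * (D - m) := by
  refine ⟨(sc f).natDegree, natDegree_sc_le f, ?_, ?_⟩
  · obtain ⟨p, hp⟩ := hne
    have := K_add_le_of_mem p (hf p hp) h0
    omega
  · have hg : (sc f).coeff (sc f).natDegree ≠ 0 := by
      rw [Polynomial.coeff_natDegree, Polynomial.leadingCoeff_ne_zero, Ne,
        map_eq_zero_iff _ sc_injective]
      exact h0
    apply basis_hom Y H hg (Hd_sc_coeff f _)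
    intro z hz
    have h1 := K_sc_coeff_le z f (sc f).natDegree
    have h2 := K_add_le_of_mem z (hf z hz) h0
    omega

/-- a proper subspace is contained in the zero set of a nonzero linear form -/
lemma exists_linear [Fintype σ] {W : Submodule ℂ (σ → ℂ)} (hW : W ≠ ⊤) :
    ∃ g : R σ, g ≠ 0 ∧ g.totalDegree ≤ 1 ∧ ∀ p ∈ W, g ∈ Ip p := by
  classical
  obtain ⟨φ, hφ, hle⟩ := Submodule.exists_le_ker_of_lt_top W (lt_top_iff_ne_top.mpr hW)
  refine ⟨∑ i, C (φ (Pi.single i 1)) * X i, ?_, ?_, ?_⟩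
  · intro h
    apply hφ
    apply LinearMap.pi_ext'
    intro i
    apply LinearMap.ext_ring
    have h1 := congrArg (MvPolynomial.eval (Pi.single i (1 : ℂ))) h
    simp only [map_sum, map_mul, eval_C, eval_X, map_zero] at h1
    rw [Finset.sum_eq_single i] at h1
    · simpa using h1
    · intro j _ hj; simp [Pi.single_eq_of_ne hj]
    · intro h; exact absurd (Finset.mem_univ i) h
  · refine (MvPolynomial.totalDegree_finsetSum _ _).trans ?_
    apply Finset.sup_le
    intro i _
    refine (MvPolynomial.totalDegree_mul _ _).trans ?_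
    simp
  · intro p hp
    rw [RingHom.mem_ker]
    have h1 : φ p = 0 := hle hp
    have h2 : φ p = ∑ i, p i * φ (Pi.single i 1) := by
      conv_lhs => rw [pi_eq_sum_univ' p]
      rw [map_sum]
      apply Finset.sum_congr rfl
      intro i _
      rw [map_smul, smul_eq_mul]
    rw [map_sum]
    have h3 : ∑ i, (MvPolynomial.eval₂Hom (Polynomial.C : ℂ →+* Polynomial ℂ)
        (fun i => Polynomial.C (p i) * Polynomial.X)) (C (φ (Pi.single i 1)) * X i) =
        Polynomial.C (∑ i, p i * φ (Pi.single i 1)) * Polynomial.X := by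
      rw [map_sum, Finset.sum_mul]
      apply Finset.sum_congr rfl
      intro i _
      simp
      ring
    rw [h3, ← h2, h1]; simp

end Pool.Agent.Lib.MP_5c1225_ag
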