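import Pool.Agent.Lib.MP_5c1225_ag.Induct

set_option autoImplicit false
set_option linter.unusedSimpArgs false
set_option linter.unnecessarySimpa false
set_option linter.unusedVariables false

open MvPolynomial

namespace Pool.Agent.Lib.MP_5c1225_ag

variable {σ : Type}

lemma finrank_sup_span [Fintype σ] {U : Submodule ℂ (σ → ℂ)} {y : σ → ℂ} (hy : y ∉ U) :
    Module.finrank ℂ (U ⊔ Submodule.span ℂ {y} : Submodule ℂ (σ → ℂ)) =
      Module.finrank ℂ U + 1 := by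
  have h0 : y ≠ 0 := by rintro rfl; exact hy U.zero_mem
  have h := Submodule.finrank_sup_add_finrank_inf_eq U (Submodule.span ℂ {y})
  have hinf : U ⊓ Submodule.span ℂ {y} = ⊥ :=
    ((Submodule.disjoint_span_singleton' h0).mpr hy).eq_bot
  rw [hinf, finrank_bot, finrank_span_singleton h0] at h
  omega

lemma ne_top_of_finrank [Fintype σ] {U : Submodule ℂ (σ → ℂ)}
    (h : Module.finrank ℂ U < Module.finrank ℂ (σ → ℂ)) : U ≠ ⊤ := by
  rintro rfl; simp at h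

/-- a form constant in all directions has degree zero -/
lemma deg_zero_of_top {G : R σ} (h0 : G ≠ 0) {d : ℕ} (hd : Hd d G) (hI : Inv ⊤ G) : d = 0 := by
  have hv : vertex G = ⊤ := top_le_iff.mp hI.le_vertex
  have := eq_C_of_vertex_top hv
  rw [this] at hd h0
  exact Hd.unique h0 hd (Hd_C _)

lemma S_add (Y : Finset (σ → ℂ)) (w1 w2 : (σ → ℂ) → ℝ) (F : R σ) :
    S Y (fun z => w1 z + w2 z) F = S Y w1 F + S Y w2 F := by
  unfold S; rw [← Finset.sum_add_distrib]; exact Finset.sum_congr rfl fun z _ => by ring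

lemma S_smul (Y : Finset (σ → ℂ)) (a : ℝ) (w1 : (σ → ℂ) → ℝ) (F : R σ) :
    S Y (fun z => a * w1 z) F = a * S Y w1 F := by
  unfold S; rw [Finset.mul_sum]; exact Finset.sum_congr rfl fun z _ => by ring

open Classical in
/-- point mass -/
noncomputable def pt (y : σ → ℂ) (a : ℝ) : (σ → ℂ) → ℝ := fun z => if z = y then a else 0

lemma S_pt (Y : Finset (σ → ℂ)) {y : σ → ℂ} (hy : y ∈ Y) (a : ℝ) (F : R σ) :
    S Y (pt y a) F = a * K y F := by
  unfold S pt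
  rw [Finset.sum_eq_single y]
  · simp
  · intro b _ hb; simp [hb]
  · intro h; exact absurd hy h

lemma sum_pt (Y : Finset (σ → ℂ)) {y : σ → ℂ} (hy : y ∈ Y) (a : ℝ) :
    ∑ z ∈ Y, pt y a z = a := by
  unfold pt
  rw [Finset.sum_eq_single y]
  · simp
  · intro b _ hb; simp [hb]
  · intro h; exact absurd hy h

lemma pt_nonneg (y : σ → ℂ) {a : ℝ} (ha : 0 ≤ a) (z : σ → ℂ) : 0 ≤ pt y a z := by
  unfold pt; split_ifs <;> simp [ha]

lemma pt_ne {y z : σ → ℂ} (h : z ≠ y) (a : ℝ) : pt y a z = 0 := by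
  unfold pt; simp [h]

/-- good weights -/
structure Wt (Y : Finset (σ → ℂ)) (U : Submodule ℂ (σ → ℂ)) (t : ℝ) (w : (σ → ℂ) → ℝ) : Prop where
  nonneg : ∀ z, 0 ≤ w z
  total : ∑ z ∈ Y, w z = t
  zero : U ≠ ⊤ → ∀ z ∈ Y, z ∈ U → w z = 0
  tst : Tst Y w U

/-- case A: extend by a point mass at `y`. -/
lemma caseA {Y : Finset (σ → ℂ)} {U : Submodule ℂ (σ → ℂ)} {t : ℝ} {w : (σ → ℂ) → ℝ}
    {y : σ → ℂ} (hy : y ∈ Y) (hyU : y ∉ U) (hw : ∀ z, 0 ≤ w z) (ht : ∑ z ∈ Y, w z = t)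
    (h0 : ∀ z ∈ Y, z ∈ U → w z = 0)
    (h : ∀ f : R σ, Irreducible f → ∀ d : ℕ, Hd d f → Inv U f → 2 * (d : ℝ) ≤ S Y w f + K y f) :
    ∃ w', Wt Y U (t + 1) w' := by
  refine ⟨fun z => w z + pt y 1 z, ?_, ?_, ?_, ?_⟩
  · intro z; exact add_nonneg (hw z) (pt_nonneg y zero_le_one z)
  · rw [Finset.sum_add_distrib, ht, sum_pt Y hy]
  · intro _ z hz hzU
    have hzy : z ≠ y := by rintro rfl; exact hyU hzU
    change w z + pt y 1 z = 0
    rw [h0 z hz hzU, pt_ne hzy, add_zero]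
  · apply factor_ind
    · intro z; exact add_nonneg (hw z) (pt_nonneg y zero_le_one z)
    · intro f hf d hd hI
      rw [S_add, S_pt Y hy]
      have := h f hf d hd hI
      linarith

/-- data of a bad form at `y` -/
structure Bad (Y : Finset (σ → ℂ)) (U : Submodule ℂ (σ → ℂ)) (t : ℝ) (y : σ → ℂ)
    (w : (σ → ℂ) → ℝ) (Φ : R σ) (d : ℕ) : Prop where
  memY : y ∈ Y
  notMem : y ∉ U
  nonneg : ∀ z, 0 ≤ w z
  total : ∑ z ∈ Y, w z = t
  zero : ∀ z ∈ Y, z ∈ U → w z = 0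
  tst : Tst Y w (U ⊔ Submodule.span ℂ {y})
  irr : Irreducible Φ
  hd : Hd d Φ
  inv : Inv U Φ
  Keq : K y Φ = 1
  lt : S Y w Φ + 1 < 2 * d
  ge : 2 * d ≤ S Y w Φ + 2

/-- If case A fails at `y` there is a bad form. -/
lemma exists_bad {Y : Finset (σ → ℂ)} {U : Submodule ℂ (σ → ℂ)} {t : ℝ} {w : (σ → ℂ) → ℝ}
    {y : σ → ℂ} (hy : y ∈ Y) (hyU : y ∉ U) (hw : ∀ z, 0 ≤ w z) (ht : ∑ z ∈ Y, w z = t)
    (h0 : ∀ z ∈ Y, z ∈ U → w z = 0) (hT : Tst Y w (U ⊔ Submodule.span ℂ {y}))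
    (h : ¬ ∀ f : R σ, Irreducible f → ∀ d : ℕ, Hd d f → Inv U f →
      2 * (d : ℝ) ≤ S Y w f + K y f) :
    ∃ Φ d, Bad Y U t y w Φ d := by
  push Not at h
  obtain ⟨Φ, hΦ, d, hd, hI, hlt⟩ := h
  have hK1 : K y Φ = 1 := by
    by_contra hne
    rcases Nat.lt_or_ge (K y Φ) 1 with h1 | h1
    · have hK0 : K y Φ = 0 := by omega
      have := hT Φ hΦ.ne_zero d hd (hI.sup hK0)
      rw [hK0] at hlt
      push_cast at hlt
      linarith
    · have := ineq_disc hw hT hΦ hd hI (by omega)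
      linarith
  have hder := ineq_der hw hT hΦ.ne_zero hd hI
  rw [hK1] at hder hlt
  push_cast at hder hlt
  exact ⟨Φ, d, hy, hyU, hw, ht, h0, hT, hΦ, hd, hI, hK1, hlt, by linarith⟩

/-- the inequality for forms not associated to the bad form -/
lemma Bad.other {Y : Finset (σ → ℂ)} {U : Submodule ℂ (σ → ℂ)} {t : ℝ} {y : σ → ℂ}
    {w : (σ → ℂ) → ℝ} {Φ : R σ} {d : ℕ} (B : Bad Y U t y w Φ d) {f : R σ} (hf : Irreducible f)
    (hn : ¬ Associated Φ f) {e : ℕ} (he : Hd e f) (hI : Inv U f) :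
    2 * (e : ℝ) ≤ S Y w f + (1 - (2 * d - 1 - S Y w Φ)) * K y f := by
  rcases Nat.eq_zero_or_pos (K y f) with h | h
  · have := B.tst f hf.ne_zero e he (hI.sup h)
    rw [h]; simpa using this
  · have hK : 0 < K y Φ := by rw [B.Keq]; exact one_pos
    have := ineq_res B.nonneg B.tst hf B.irr (fun ha => hn ha.symm) he B.hd hI B.inv h hK
    rw [B.Keq] at this
    push_cast at this
    nlinarith

/-- case B1: two non-associated bad forms -/
lemma caseB1 {Y : Finset (σ → ℂ)} {U : Submodule ℂ (σ → ℂ)} {t : ℝ} {y1 y2 y3 : σ → ℂ}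
    {w1 w2 : (σ → ℂ) → ℝ} {Φ1 Φ2 : R σ} {d1 d2 : ℕ} (B1 : Bad Y U t y1 w1 Φ1 d1)
    (B2 : Bad Y U t y2 w2 Φ2 d2) (hn : ¬ Associated Φ1 Φ2) (hy3 : y3 ∈ Y)
    (h31 : 0 < K y3 Φ1) (h32 : 0 < K y3 Φ2) : ∃ w, Wt Y U (t + 1) w := by
  obtain ⟨n1, hn1⟩ : ∃ n1 : ℝ, n1 = 2 * d1 - 1 - S Y w1 Φ1 := ⟨_, rfl⟩
  obtain ⟨n2, hn2⟩ : ∃ n2 : ℝ, n2 = 2 * d2 - 1 - S Y w2 Φ2 := ⟨_, rfl⟩
  have p1 : 0 < n1 := by have := B1.lt; rw [hn1]; linarith
  have p2 : 0 < n2 := by have := B2.lt; rw [hn2]; linarith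
  have q1 : n1 ≤ 1 := by have := B1.ge; rw [hn1]; linarith
  have q2 : n2 ≤ 1 := by have := B2.ge; rw [hn2]; linarith
  have hs : 0 < n1 + n2 := by linarith
  obtain ⟨a1, ha1⟩ : ∃ a1 : ℝ, a1 = n2 / (n1 + n2) := ⟨_, rfl⟩
  obtain ⟨a2, ha2⟩ : ∃ a2 : ℝ, a2 = n1 / (n1 + n2) := ⟨_, rfl⟩
  have r1 : 0 < a1 := by rw [ha1]; positivity
  have r2 : 0 < a2 := by rw [ha2]; positivity
  have hsum : a1 + a2 = 1 := by rw [ha1, ha2]; field_simp; ring
  have hbal : a1 * n1 = a2 * n2 := by rw [ha1, ha2]; field_simp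
  have h3U : y3 ∉ U := fun h => by have := B1.inv y3 h; omega
  let w : (σ → ℂ) → ℝ := fun z => a1 * w1 z + (a2 * w2 z + (pt y1 (a1 * (1 - n1)) z +
    (pt y2 (a2 * (1 - n2)) z + pt y3 (a1 * n1 + a2 * n2) z)))
  have c1 : 0 ≤ a1 * (1 - n1) := mul_nonneg r1.le (by linarith)
  have c2 : 0 ≤ a2 * (1 - n2) := mul_nonneg r2.le (by linarith)
  have c3 : 0 ≤ a1 * n1 + a2 * n2 := by positivity
  have hwn : ∀ z, 0 ≤ w z := fun z =>
    add_nonneg (mul_nonneg r1.le (B1.nonneg z)) (add_nonneg (mul_nonneg r2.le (B2.nonneg z))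
      (add_nonneg (pt_nonneg _ c1 z) (add_nonneg (pt_nonneg _ c2 z) (pt_nonneg _ c3 z))))
  have hS : ∀ f : R σ, S Y w f = a1 * S Y w1 f + (a2 * S Y w2 f + (a1 * (1 - n1) * K y1 f +
      (a2 * (1 - n2) * K y2 f + (a1 * n1 + a2 * n2) * K y3 f))) := by
    intro f
    simp only [w]
    rw [S_add, S_add, S_add, S_add, S_smul, S_smul, S_pt Y B1.memY, S_pt Y B2.memY, S_pt Y hy3]
  refine ⟨w, hwn, ?_, ?_, ?_⟩
  · simp only [w]
    rw [Finset.sum_add_distrib, Finset.sum_add_distrib, Finset.sum_add_distrib,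
      Finset.sum_add_distrib, ← Finset.mul_sum, ← Finset.mul_sum, B1.total, B2.total,
      sum_pt Y B1.memY, sum_pt Y B2.memY, sum_pt Y hy3]
    linear_combination (t + 1) * hsum
  · intro _ z hz hzU
    have e1 : z ≠ y1 := by rintro rfl; exact B1.notMem hzU
    have e2 : z ≠ y2 := by rintro rfl; exact B2.notMem hzU
    have e3 : z ≠ y3 := by rintro rfl; exact h3U hzU
    simp only [w]
    rw [B1.zero z hz hzU, B2.zero z hz hzU, pt_ne e1, pt_ne e2, pt_ne e3]; simp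
  · apply factor_ind hwn
    intro f hf e he hI
    rw [hS]
    by_cases A1 : Associated Φ1 f
    · have A2 : ¬ Associated Φ2 f := fun h => hn (A1.trans h.symm)
      have o2 := B2.other hf A2 he hI
      rw [← hn2] at o2
      have hed : e = d1 := by
        obtain ⟨u, hu⟩ := A1
        obtain ⟨a, ha, hau⟩ := MvPolynomial.isUnit_iff_eq_C_of_isReduced.mp u.isUnit
        have h1 : Hd (d1 + 0) f := by
          rw [← hu]; apply B1.hd.mul; rw [hau]; exact Hd_C a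
        exact Hd.unique hf.ne_zero he h1
      have hK1 : K y1 f = 1 := by rw [← K_associated y1 A1]; exact B1.Keq
      have hK3 : (1 : ℝ) ≤ K y3 f := by
        rw [← K_associated y3 A1]; exact_mod_cast h31
      have hS1 : S Y w1 f = S Y w1 Φ1 := S_congr Y w1 (fun z => (K_associated z A1).symm)
      have hS1' : S Y w1 f = 2 * e - 1 - n1 := by rw [hS1, hed, hn1]; ring
      rw [hS1', hK1]
      push_cast
      have m2 := mul_le_mul_of_nonneg_left o2 r2.le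
      have m3 := mul_le_mul_of_nonneg_left hK3 c3
      nlinarith
    · have o1 := B1.other hf A1 he hI
      rw [← hn1] at o1
      have m1 := mul_le_mul_of_nonneg_left o1 r1.le
      by_cases A2 : Associated Φ2 f
      · have hed : e = d2 := by
          obtain ⟨u, hu⟩ := A2
          obtain ⟨a, ha, hau⟩ := MvPolynomial.isUnit_iff_eq_C_of_isReduced.mp u.isUnit
          have h1 : Hd (d2 + 0) f := by
            rw [← hu]; apply B2.hd.mul; rw [hau]; exact Hd_C a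
          exact Hd.unique hf.ne_zero he h1
        have hK2 : K y2 f = 1 := by rw [← K_associated y2 A2]; exact B2.Keq
        have hK3 : (1 : ℝ) ≤ K y3 f := by
          rw [← K_associated y3 A2]; exact_mod_cast h32
        have hS2 : S Y w2 f = S Y w2 Φ2 := S_congr Y w2 (fun z => (K_associated z A2).symm)
        have hS2' : S Y w2 f = 2 * e - 1 - n2 := by rw [hS2, hed, hn2]; ring
        rw [hS2', hK2]
        push_cast
        have m3 := mul_le_mul_of_nonneg_left hK3 c3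
        nlinarith
      · have o2 := B2.other hf A2 he hI
        rw [← hn2] at o2
        have m2 := mul_le_mul_of_nonneg_left o2 r2.le
        have hK3 : (0 : ℝ) ≤ K y3 f := Nat.cast_nonneg _
        have m3 := mul_nonneg c3 hK3
        nlinarith

end Pool.Agent.Lib.MP_5c1225_ag
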