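import Pool.Agent.Lib.MP_5c1225_ag.Main

set_option autoImplicit false
set_option linter.unusedSimpArgs false
set_option linter.unnecessarySimpa false
set_option linter.unusedVariables false

open MvPolynomial

namespace Pool.Agent.Lib.MP_5c1225_ag

variable {σ : Type}

/-- first derivative in direction `y` -/
noncomputable def der (y : σ → ℂ) (F : R σ) : R σ := (sh y F).coeff 1

lemma sh_of_K_one {y : σ → ℂ} {F : R σ} (h : K y F ≤ 1) :
    sh y F = Polynomial.C F + Polynomial.C (der y F) * Polynomial.X := by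
  have := Polynomial.eq_X_add_C_of_natDegree_le_one (p := sh y F) h
  rw [sh_coeff_zero] at this
  rw [this, add_comm]
  rfl

lemma K_der_le (y z : σ → ℂ) (F : R σ) : K z (der y F) ≤ K z F := K_coeff_le y z F 1

lemma K_der_self {y : σ → ℂ} {F : R σ} (h : K y F ≤ 1) : K y (der y F) = 0 := by
  rcases Nat.lt_or_ge (K y F) 1 with h1 | h1
  · have := K_der_le y y F; omega
  · have h2 : K y F = 1 := le_antisymm h h1
    have := K_top y F
    rwa [h2] at this

lemma der_comm (y z : σ → ℂ) (F : R σ) : der z (der y F) = der y (der z F) :=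
  comm_coeff y z F 1 1

/-- The mixed form `∂₁Φ ∂₂Φ - Φ ∂₁∂₂Φ`. -/
noncomputable def Dl (y1 y2 : σ → ℂ) (Φ : R σ) : R σ :=
  der y1 Φ * der y2 Φ - Φ * der y2 (der y1 Φ)

lemma Dl_comm (y1 y2 : σ → ℂ) (Φ : R σ) : Dl y1 y2 Φ = Dl y2 y1 Φ := by
  unfold Dl; rw [der_comm]; ring

lemma K_Dl_left {y1 : σ → ℂ} (y2 : σ → ℂ) {Φ : R σ} (h1 : K y1 Φ ≤ 1) :
    K y1 (Dl y1 y2 Φ) = 0 := by
  rw [K_eq_zero_iff]
  have e1 := sh_of_K_one h1
  have e2 := sh_eq_C_of_K y1 (K_der_self h1)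
  have e3 := sh_of_K_one ((K_der_le y2 y1 Φ).trans h1)
  have e4 : sh y1 (der y2 (der y1 Φ)) = Polynomial.C (der y2 (der y1 Φ)) := by
    apply sh_eq_C_of_K
    have := K_der_le y2 y1 (der y1 Φ)
    rw [K_der_self h1] at this
    omega
  unfold Dl
  rw [map_sub, map_mul, map_mul, e1, e2, e3, e4, der_comm y2 y1, map_sub, map_mul, map_mul]
  ring

lemma K_Dl_le (y1 y2 z : σ → ℂ) (Φ : R σ) : K z (Dl y1 y2 Φ) ≤ 2 * K z Φ := by
  unfold Dl
  refine (K_sub_le _ _ _).trans (max_le ?_ ?_)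
  · refine (K_mul_le _ _ _).trans ?_
    have := K_der_le y1 z Φ; have := K_der_le y2 z Φ; omega
  · refine (K_mul_le _ _ _).trans ?_
    have := K_der_le y2 z (der y1 Φ); have := K_der_le y1 z Φ; omega

lemma Hd_zero (d : ℕ) : Hd d (0 : R σ) := by simp [Hd]

lemma Hd_der {d : ℕ} {F : R σ} (h : Hd d F) (y : σ → ℂ) : Hd (d - 1) (der y F) := by
  by_cases h0 : der y F = 0
  · rw [h0]; exact Hd_zero _
  · exact (Hd_coeff h y 1 h0).2

lemma Dl_ne_zero {y1 y2 : σ → ℂ} {Φ : R σ} (hΦ : Irreducible Φ) {d : ℕ} (hd : Hd d Φ)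
    (h1 : K y1 Φ = 1) (h2 : K y2 Φ = 1) : Dl y1 y2 Φ ≠ 0 := by
  intro h0
  have hp : Prime Φ := UniqueFactorizationMonoid.irreducible_iff_prime.mp hΦ
  have hdiv : Φ ∣ der y1 Φ * der y2 Φ := ⟨_, by unfold Dl at h0; exact sub_eq_zero.mp h0⟩
  have key : ∀ y, K y Φ = 1 → ¬ Φ ∣ der y Φ := by
    intro y hy hdvd
    have hne : der y Φ ≠ 0 := by have := top_ne_zero y hΦ.ne_zero; rwa [hy] at this
    obtain ⟨q, hq⟩ := hdvd
    have hq0 : q ≠ 0 := by rintro rfl; simp at hq; exact hne hq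
    have hH := Hd_der hd y
    have hle : 1 ≤ d := by have := K_le_of_Hd hd y; omega
    rw [hq] at hH
    obtain ⟨e, he⟩ := Hd_of_mul_left hq0 hΦ.ne_zero (by rwa [mul_comm] at hH)
    have := Hd.unique (mul_ne_zero hΦ.ne_zero hq0) hH (hd.mul he)
    omega
  rcases hp.dvd_or_dvd hdiv with h | h
  · exact key y1 h1 h
  · exact key y2 h2 h

lemma Hd_Dl (y1 y2 : σ → ℂ) {Φ : R σ} {d : ℕ} (hd : Hd d Φ) (h2 : 2 ≤ d) :
    Hd (2 * (d - 1)) (Dl y1 y2 Φ) := by
  unfold Dl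
  have a1 := (Hd_der hd y1).mul (Hd_der hd y2)
  have a2 := hd.mul (Hd_der (Hd_der hd y1) y2)
  have e1 : d - 1 + (d - 1) = 2 * (d - 1) := by omega
  have e2 : d + (d - 1 - 1) = 2 * (d - 1) := by omega
  rw [e1] at a1
  rw [e2] at a2
  exact a1.sub a2

/-- The main induction. -/
theorem main_induction [Fintype σ] (Y : Finset (σ → ℂ)) (hne : Y.Nonempty)
    (H : ∀ W1 W2 : Submodule ℂ (σ → ℂ), W1 ≠ ⊤ → W2 ≠ ⊤ → ∃ y ∈ Y, y ∉ W1 ∧ y ∉ W2) :
    ∀ (c : ℕ) (U : Submodule ℂ (σ → ℂ)),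
      Module.finrank ℂ U + c = Module.finrank ℂ (σ → ℂ) → ∃ w, Wt Y U (c + 1) w := by
  intro c
  induction c using Nat.strong_induction_on with
  | _ c IH =>
  intro U hU
  rcases Nat.eq_zero_or_pos c with hc0 | hcpos
  · -- c = 0
    subst hc0
    have hUtop : U = ⊤ := Submodule.eq_top_of_finrank_eq (by omega)
    obtain ⟨y, hy⟩ := hne
    refine ⟨pt y 1, fun z => pt_nonneg y zero_le_one z, ?_, ?_, ?_⟩
    · rw [sum_pt Y hy]; simp
    · intro h; exact absurd hUtop h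
    · intro G hG d hd hI
      rw [hUtop] at hI
      rw [deg_zero_of_top hG hd hI, S_pt Y hy]
      simp
  have hUne : U ≠ ⊤ := ne_top_of_finrank (by omega)
  rcases Nat.lt_or_ge c 2 with hc1 | hc2
  · -- c = 1
    have hc : c = 1 := by omega
    subst hc
    obtain ⟨y, hy, hyU, -⟩ := H U U hUne hUne
    have hsup : U ⊔ Submodule.span ℂ {y} = ⊤ :=
      Submodule.eq_top_of_finrank_eq (by rw [finrank_sup_span hyU]; omega)
    refine ⟨pt y 2, fun z => pt_nonneg y zero_le_two z, ?_, ?_, ?_⟩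
    · rw [sum_pt Y hy]; norm_num
    · intro _ z hz hzU
      apply pt_ne
      rintro rfl; exact hyU hzU
    · intro G hG d hd hI
      rw [S_pt Y hy]
      have h0 := top_ne_zero y hG
      obtain ⟨hle, hH⟩ := Hd_coeff hd y _ h0
      have hI2 : Inv (U ⊔ Submodule.span ℂ {y}) ((sh y G).coeff (K y G)) := by
        apply Inv.sup _ (K_top y G)
        intro u hu
        have := K_coeff_le y u G (K y G)
        rw [hI u hu] at this
        simpa using this
      rw [hsup] at hI2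
      have := deg_zero_of_top h0 hH hI2
      have hdk : d ≤ K y G := by omega
      have : (d : ℝ) ≤ K y G := by exact_mod_cast hdk
      linarith
  -- c ≥ 2
  have IH1 : ∀ y : σ → ℂ, y ∉ U → ∃ w, Wt Y (U ⊔ Submodule.span ℂ {y}) c w := by
    intro y hyU
    obtain ⟨w, hw⟩ := IH (c - 1) (by omega) (U ⊔ Submodule.span ℂ {y})
      (by rw [finrank_sup_span hyU]; omega)
    refine ⟨w, ?_⟩
    have : ((c - 1 : ℕ) : ℝ) + 1 = c := by
      rw [Nat.cast_sub (by omega)]; push_cast; ring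
    rwa [this] at hw
  have hsne : ∀ y : σ → ℂ, y ∉ U → U ⊔ Submodule.span ℂ {y} ≠ ⊤ := fun y hyU =>
    ne_top_of_finrank (by rw [finrank_sup_span hyU]; omega)
  -- for each y either case A or a bad form
  have dich : ∀ y ∈ Y, y ∉ U → (∃ w', Wt Y U ((c : ℝ) + 1) w') ∨ ∃ w Φ d, Bad Y U c y w Φ d := by
    intro y hy hyU
    obtain ⟨w, hw⟩ := IH1 y hyU
    have h0 : ∀ z ∈ Y, z ∈ U → w z = 0 := fun z hz hzU =>
      hw.zero (hsne y hyU) z hz (Submodule.mem_sup_left hzU)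
    by_cases hA : ∀ f : R σ, Irreducible f → ∀ d : ℕ, Hd d f → Inv U f →
      2 * (d : ℝ) ≤ S Y w f + K y f
    · exact Or.inl (caseA hy hyU hw.nonneg hw.total h0 hA)
    · obtain ⟨Φ, d, hB⟩ := exists_bad hy hyU hw.nonneg hw.total h0 hw.tst hA
      exact Or.inr ⟨w, Φ, d, hB⟩
  by_contra hcon
  have allbad : ∀ y ∈ Y, y ∉ U → ∃ w Φ d, Bad Y U c y w Φ d := fun y hy hyU =>
    (dich y hy hyU).resolve_left hcon
  obtain ⟨y1, hy1, hy1U, -⟩ := H U U hUne hUne
  obtain ⟨w1, Φ1, d1, B1⟩ := allbad y1 hy1 hy1U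
  have hass : ∀ y ∈ Y, y ∉ U → ∀ w Φ d, Bad Y U c y w Φ d → Associated Φ1 Φ := by
    intro y hy hyU w Φ d B
    by_contra hn
    have v1 : vertex Φ1 ≠ ⊤ := by
      intro h
      have : y1 ∈ vertex Φ1 := by rw [h]; trivial
      have := mem_vertex.mp this
      rw [B1.Keq] at this; omega
    have v2 : vertex Φ ≠ ⊤ := by
      intro h
      have : y ∈ vertex Φ := by rw [h]; trivial
      have := mem_vertex.mp this
      rw [B.Keq] at this; omega
    obtain ⟨y3, hy3, h31, h32⟩ := H _ _ v1 v2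
    rw [mem_vertex] at h31 h32
    exact hcon (caseB1 B1 B hn hy3 (Nat.pos_of_ne_zero h31) (Nat.pos_of_ne_zero h32))
  have hK : ∀ y ∈ Y, y ∉ U → K y Φ1 = 1 := by
    intro y hy hyU
    obtain ⟨w, Φ, d, B⟩ := allbad y hy hyU
    rw [K_associated y (hass y hy hyU w Φ d B)]
    exact B.Keq
  have hK' : ∀ y ∈ Y, K y Φ1 ≤ 1 := by
    intro y hy
    by_cases hyU : y ∈ U
    · rw [B1.inv y hyU]; omega
    · rw [hK y hy hyU]
  have hSc : S Y w1 Φ1 = c := by
    rw [← B1.total]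
    unfold S
    apply Finset.sum_congr rfl
    intro z hz
    by_cases hzU : z ∈ U
    · rw [B1.zero z hz hzU]; simp
    · rw [hK z hz hzU]; simp
  have hlt := B1.lt
  rw [hSc] at hlt
  have hlt' : c + 1 < 2 * d1 := by exact_mod_cast hlt
  obtain ⟨y2, hy2, hy2U, -⟩ := H _ _ (hsne y1 hy1U) (hsne y1 hy1U)
  have hy2U' : y2 ∉ U := fun h => hy2U (Submodule.mem_sup_left h)
  obtain ⟨w, hw⟩ := IH (c - 2) (by omega) (U ⊔ Submodule.span ℂ {y1} ⊔ Submodule.span ℂ {y2})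
    (by rw [finrank_sup_span hy2U, finrank_sup_span hy1U]; omega)
  have hΔI : Inv (U ⊔ Submodule.span ℂ {y1} ⊔ Submodule.span ℂ {y2}) (Dl y1 y2 Φ1) := by
    apply Inv.sup
    · apply Inv.sup
      · intro u hu
        have := K_Dl_le y1 y2 u Φ1
        rw [B1.inv u hu] at this
        omega
      · exact K_Dl_left y2 (hK' y1 hy1)
    · rw [Dl_comm]; exact K_Dl_left y1 (hK' y2 hy2)
  have h1 := hw.tst _ (Dl_ne_zero B1.irr B1.hd (hK y1 hy1 hy1U) (hK y2 hy2 hy2U')) _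
    (Hd_Dl y1 y2 B1.hd (by omega)) hΔI
  have h2 : S Y w (Dl y1 y2 Φ1) ≤ 2 * ∑ z ∈ Y, w z := by
    unfold S
    rw [Finset.mul_sum]
    apply Finset.sum_le_sum
    intro z hz
    have a1 : K z (Dl y1 y2 Φ1) ≤ 2 := (K_Dl_le y1 y2 z Φ1).trans (by have := hK' z hz; omega)
    have a2 : (K z (Dl y1 y2 Φ1) : ℝ) ≤ 2 := by exact_mod_cast a1
    have := mul_le_mul_of_nonneg_left a2 (hw.nonneg z)
    linarith
  rw [hw.total, Nat.cast_sub hc2] at h2
  push_cast at h1 h2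
  rw [Nat.cast_sub (by omega)] at h1
  push_cast at h1
  have h3 : (2 * d1 : ℝ) ≤ c + 1 := by linarith
  linarith

/-- Basis inequality: if `Y` spans, then `d ≤ ∑ w z K z F` with weights of total `dim`. -/
theorem basis_induction [Fintype σ] (Y : Finset (σ → ℂ))
    (H : ∀ W : Submodule ℂ (σ → ℂ), W ≠ ⊤ → ∃ y ∈ Y, y ∉ W) :
    ∀ (c : ℕ) (U : Submodule ℂ (σ → ℂ)),
      Module.finrank ℂ U + c = Module.finrank ℂ (σ → ℂ) →
      ∃ w : (σ → ℂ) → ℝ, (∀ z, 0 ≤ w z) ∧ (∑ z ∈ Y, w z = c) ∧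
        ∀ G : R σ, G ≠ 0 → ∀ d : ℕ, Hd d G → Inv U G → (d : ℝ) ≤ S Y w G := by
  intro c
  induction c with
  | zero =>
    intro U hU
    have hUtop : U = ⊤ := Submodule.eq_top_of_finrank_eq (by omega)
    refine ⟨fun _ => 0, fun _ => le_rfl, by simp, ?_⟩
    intro G hG d hd hI
    rw [hUtop] at hI
    rw [deg_zero_of_top hG hd hI]
    simp [S]
  | succ c IH =>
    intro U hU
    have hUne : U ≠ ⊤ := ne_top_of_finrank (by omega)
    obtain ⟨y, hy, hyU⟩ := H U hUne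
    obtain ⟨w, hw, ht, hT⟩ := IH (U ⊔ Submodule.span ℂ {y})
      (by rw [finrank_sup_span hyU]; omega)
    refine ⟨fun z => w z + pt y 1 z, fun z => add_nonneg (hw z) (pt_nonneg y zero_le_one z), ?_, ?_⟩
    · rw [Finset.sum_add_distrib, ht, sum_pt Y hy]; push_cast; ring
    · intro G hG d hd hI
      rw [S_add, S_pt Y hy]
      have h0 := top_ne_zero y hG
      obtain ⟨hle, hH⟩ := Hd_coeff hd y _ h0
      have hI2 : Inv (U ⊔ Submodule.span ℂ {y}) ((sh y G).coeff (K y G)) := by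
        apply Inv.sup _ (K_top y G)
        intro u hu
        have := K_coeff_le y u G (K y G)
        rw [hI u hu] at this
        simpa using this
      have h1 := hT _ h0 _ hH hI2
      have h2 := S_mono Y hw (fun z => K_coeff_le y z G (K y G))
      rw [Nat.cast_sub hle] at h1
      linarith

/-- Final form of the main inequality for homogeneous forms. -/
theorem main_hom [Fintype σ] (Y : Finset (σ → ℂ)) (hne : Y.Nonempty)
    (H : ∀ W1 W2 : Submodule ℂ (σ → ℂ), W1 ≠ ⊤ → W2 ≠ ⊤ → ∃ y ∈ Y, y ∉ W1 ∧ y ∉ W2)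
    {F : R σ} (hF : F ≠ 0) {d : ℕ} (hd : Hd d F) {k : ℕ} (hk : ∀ z ∈ Y, K z F ≤ k) :
    2 * d ≤ (Fintype.card σ + 1) * k := by
  obtain ⟨w, hw⟩ := main_induction Y hne H (Fintype.card σ) ⊥ (by simp)
  have h1 := hw.tst F hF d hd (by
    intro u hu
    rw [Submodule.mem_bot] at hu
    subst hu
    rw [K_eq_zero_iff]; exact sh_zero F)
  have h2 : S Y w F ≤ ∑ z ∈ Y, w z * k := by
    unfold S
    apply Finset.sum_le_sum
    intro z hz
    exact mul_le_mul_of_nonneg_left (by exact_mod_cast hk z hz) (hw.nonneg z)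
  rw [← Finset.sum_mul, hw.total] at h2
  have h3 : (2 * d : ℝ) ≤ (Fintype.card σ + 1) * k := h1.trans h2
  exact_mod_cast h3

theorem basis_hom [Fintype σ] (Y : Finset (σ → ℂ))
    (H : ∀ W : Submodule ℂ (σ → ℂ), W ≠ ⊤ → ∃ y ∈ Y, y ∉ W)
    {F : R σ} (hF : F ≠ 0) {d : ℕ} (hd : Hd d F) {k : ℕ} (hk : ∀ z ∈ Y, K z F ≤ k) :
    d ≤ Fintype.card σ * k := by
  obtain ⟨w, hw, ht, hT⟩ := basis_induction Y H (Fintype.card σ) ⊥ (by simp)
  have h1 := hT F hF d hd (by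
    intro u hu
    rw [Submodule.mem_bot] at hu
    subst hu
    rw [K_eq_zero_iff]; exact sh_zero F)
  have h2 : S Y w F ≤ ∑ z ∈ Y, w z * k := by
    unfold S
    apply Finset.sum_le_sum
    intro z hz
    exact mul_le_mul_of_nonneg_left (by exact_mod_cast hk z hz) (hw z)
  rw [← Finset.sum_mul, ht] at h2
  have h3 : (d : ℝ) ≤ Fintype.card σ * k := h1.trans h2
  exact_mod_cast h3

end Pool.Agent.Lib.MP_5c1225_ag
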