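import Pool.Agent.Lib.MP_5c1225_ag.Shift

set_option autoImplicit false
set_option linter.unusedSimpArgs false
set_option linter.unnecessarySimpa false

open MvPolynomial

namespace Pool.Agent.Lib.MP_5c1225_ag

variable {σ : Type}

/-- `F(x + S y + T y)` in two ways. -/
lemma map_sh_taylor (y : σ → ℂ) (F : R σ) :
    (sh y F).map (sh y) = Polynomial.taylor Polynomial.X ((sh y F).map Polynomial.C) := by
  have h : (Polynomial.mapRingHom (sh y)).comp (sh y) =
      ((Polynomial.compRingHom (Polynomial.X + Polynomial.C Polynomial.X)).comp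
        (Polynomial.mapRingHom (Polynomial.C : R σ →+* Polynomial (R σ)))).comp (sh y) := by
    apply MvPolynomial.ringHom_ext
    · intro a; simp
    · intro i; simp; ring
  have := congrArg (fun φ => φ F) h
  simpa [Polynomial.taylor_apply] using this

/-- the top coefficient of `F(x + T y)` is constant in direction `y`. -/
lemma K_top (y : σ → ℂ) (F : R σ) : K y ((sh y F).coeff (K y F)) = 0 := by
  rw [K_eq_zero_iff]
  have h := congrArg (fun P => P.coeff (K y F)) (map_sh_taylor y F)
  simp only [Polynomial.coeff_map] at h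
  rw [h]
  have h2 : ((sh y F).map (Polynomial.C : R σ →+* Polynomial (R σ))).natDegree = K y F := by
    rw [Polynomial.natDegree_map_eq_of_injective Polynomial.C_injective]; rfl
  conv_lhs => rw [← h2]
  rw [Polynomial.coeff_taylor_natDegree, Polynomial.leadingCoeff, h2, Polynomial.coeff_map]

lemma top_ne_zero (y : σ → ℂ) {F : R σ} (hF : F ≠ 0) : (sh y F).coeff (K y F) ≠ 0 := by
  have := sh_ne_zero y hF
  rw [← Polynomial.leadingCoeff_ne_zero] at this
  exact this

lemma natDegree_det_le {n : Type} [Fintype n] [DecidableEq n] {A : Type} [CommRing A]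
    (M : Matrix n n (Polynomial A)) (b : n → ℕ) (h : ∀ i j, (M i j).natDegree ≤ b j) :
    M.det.natDegree ≤ ∑ j, b j := by
  rw [Matrix.det_apply]
  apply Polynomial.natDegree_sum_le_of_forall_le
  intro s _
  refine (Polynomial.natDegree_smul_le _ _).trans ?_
  refine (Polynomial.natDegree_prod_le _ _).trans ?_
  exact Finset.sum_le_sum fun i _ => h _ _

lemma K_resultant_le (z : σ → ℂ) (P Q : Polynomial (R σ)) (m n a b : ℕ)
    (hP : ∀ j, K z (P.coeff j) ≤ a) (hQ : ∀ j, K z (Q.coeff j) ≤ b) :
    K z (Polynomial.resultant P Q m n) ≤ n * a + m * b := by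
  unfold K Polynomial.resultant
  rw [RingHom.map_det]
  refine (natDegree_det_le _ (fun j => Fin.addCases (fun _ => b) (fun _ => a) j) ?_).trans ?_
  · intro i j
    rw [RingHom.mapMatrix_apply, Matrix.map_apply]
    induction j using Fin.addCases with
    | left j =>
      simp only [Polynomial.sylvester, Matrix.of_apply, Fin.addCases_left]
      split_ifs
      · exact hQ _
      · simp
    | right j =>
      simp only [Polynomial.sylvester, Matrix.of_apply, Fin.addCases_right]
      split_ifs
      · exact hP _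
      · simp
  · rw [Fin.sum_univ_add]
    simp only [Fin.addCases_left, Fin.addCases_right, Finset.sum_const, Finset.card_univ,
      Fintype.card_fin, smul_eq_mul]
    omega

lemma sc_resultant (P Q : Polynomial (R σ)) (m n p q : ℕ)
    (hP : ∀ j, sc (P.coeff j) * Polynomial.X ^ j = Polynomial.C (P.coeff j) * Polynomial.X ^ p)
    (hQ : ∀ j, sc (Q.coeff j) * Polynomial.X ^ j = Polynomial.C (Q.coeff j) * Polynomial.X ^ q) :
    sc (Polynomial.resultant P Q m n) * Polynomial.X ^ (m * n) =
      Polynomial.C (Polynomial.resultant P Q m n) * Polynomial.X ^ (m * q + n * p) := by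
  set M := Polynomial.sylvester P Q m n with hMdef
  let a : Fin (m + n) → ℕ := fun j => Fin.addCases (fun j => q + j) (fun j => p + j) j
  have hM : ∀ i j : Fin (m + n), (Polynomial.X : Polynomial (R σ)) ^ (i : ℕ) * sc (M i j) =
      Polynomial.X ^ (a j) * Polynomial.C (M i j) := by
    intro i j
    induction j using Fin.addCases with
    | left j =>
      simp only [hMdef, a, Polynomial.sylvester, Matrix.of_apply, Fin.addCases_left]
      split_ifs with h
      · obtain ⟨h1, h2⟩ := h
        have := hQ ((i : ℕ) - j)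
        have hi : (i : ℕ) = ((i : ℕ) - j) + j := by omega
        calc Polynomial.X ^ (i : ℕ) * sc (Q.coeff (↑i - ↑j))
            = (sc (Q.coeff (↑i - ↑j)) * Polynomial.X ^ ((i : ℕ) - j)) * Polynomial.X ^ (j : ℕ) := by
              rw [mul_assoc, ← pow_add, ← hi]; ring
          _ = _ := by rw [this, pow_add]; ring
      · simp
    | right j =>
      simp only [hMdef, a, Polynomial.sylvester, Matrix.of_apply, Fin.addCases_right]
      split_ifs with h
      · obtain ⟨h1, h2⟩ := h
        have := hP ((i : ℕ) - j)
        have hi : (i : ℕ) = ((i : ℕ) - j) + j := by omega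
        calc Polynomial.X ^ (i : ℕ) * sc (P.coeff (↑i - ↑j))
            = (sc (P.coeff (↑i - ↑j)) * Polynomial.X ^ ((i : ℕ) - j)) * Polynomial.X ^ (j : ℕ) := by
              rw [mul_assoc, ← pow_add, ← hi]; ring
          _ = _ := by rw [this, pow_add]; ring
      · simp
  have h1 : (Matrix.of fun i j : Fin (m + n) => (Polynomial.X : Polynomial (R σ)) ^ (i : ℕ) *
      (sc.mapMatrix M) i j) = (Matrix.of fun i j : Fin (m + n) => Polynomial.X ^ (a j) *
      ((Polynomial.C : R σ →+* Polynomial (R σ)).mapMatrix M) i j) := by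
    refine Matrix.ext fun i j => ?_
    exact hM i j
  have h2 := congrArg Matrix.det h1
  rw [Matrix.det_mul_column (fun i : Fin (m + n) => (Polynomial.X : Polynomial (R σ)) ^ (i : ℕ)),
    Matrix.det_mul_row (fun j : Fin (m + n) => (Polynomial.X : Polynomial (R σ)) ^ (a j)),
    ← RingHom.map_det, ← RingHom.map_det, Finset.prod_pow_eq_pow_sum,
    Finset.prod_pow_eq_pow_sum] at h2
  have h3 : (∑ j, a j) + m * n = (m * q + n * p) + ∑ i : Fin (m + n), (i : ℕ) := by
    rw [Fin.sum_univ_add, Fin.sum_univ_add]
    simp only [a, Fin.addCases_left, Fin.addCases_right, Finset.sum_add_distrib, Finset.sum_const,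
      Finset.card_univ, Fintype.card_fin, smul_eq_mul, Fin.val_castAdd, Fin.val_natAdd]
    ring
  have hX : (Polynomial.X ^ (∑ i : Fin (m + n), (i : ℕ)) : Polynomial (R σ)) ≠ 0 :=
    pow_ne_zero _ Polynomial.X_ne_zero
  apply mul_left_cancel₀ hX
  change _ * (sc M.det * _) = _ * (Polynomial.C M.det * _)
  calc Polynomial.X ^ (∑ i : Fin (m + n), (i : ℕ)) * (sc M.det * Polynomial.X ^ (m * n))
      = (Polynomial.X ^ (∑ i : Fin (m + n), (i : ℕ)) * sc M.det) * Polynomial.X ^ (m * n) := by ring
    _ = (Polynomial.X ^ (∑ j, a j) * Polynomial.C M.det) * Polynomial.X ^ (m * n) := by rw [h2]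
    _ = Polynomial.C M.det * Polynomial.X ^ ((∑ j, a j) + m * n) := by rw [pow_add]; ring
    _ = _ := by rw [h3, pow_add]; ring

lemma resultant_taylor' {A : Type} [CommRing A] (f g : Polynomial A) (r : A) (n : ℕ)
    (hg : g.natDegree ≤ n) :
    Polynomial.resultant (Polynomial.taylor r f) (Polynomial.taylor r g) f.natDegree n =
      Polynomial.resultant f g f.natDegree n := by
  obtain ⟨k, rfl⟩ := Nat.exists_eq_add_of_le hg
  rw [Polynomial.resultant_add_right_deg _ _ _ _ k (by simp),
    Polynomial.resultant_add_right_deg _ _ _ _ k le_rfl, Polynomial.coeff_taylor_natDegree]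
  have := Polynomial.resultant_taylor f g r
  simp only [Polynomial.natDegree_taylor] at this
  rw [this]; rfl

/-- The resultant form of `f, g` in direction `y`. -/
noncomputable def RR (y : σ → ℂ) (f g : R σ) : R σ :=
  Polynomial.resultant (sh y f) (sh y g)

lemma K_RR_le (y z : σ → ℂ) (f g : R σ) :
    K z (RR y f g) ≤ K y g * K z f + K y f * K z g :=
  K_resultant_le z _ _ _ _ _ _ (K_coeff_le y z f) (K_coeff_le y z g)

lemma sc_RR (y : σ → ℂ) {f g : R σ} {d e : ℕ} (hf : Hd d f) (hg : Hd e g) :
    sc (RR y f g) * Polynomial.X ^ (K y f * K y g) =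
      Polynomial.C (RR y f g) * Polynomial.X ^ (K y f * e + K y g * d) :=
  sc_resultant _ _ _ _ _ _ (sc_coeff hf y) (sc_coeff hg y)

lemma K_RR_self (y : σ → ℂ) (f g : R σ) : K y (RR y f g) = 0 := by
  rw [K_eq_zero_iff]
  have h := Polynomial.resultant_map_map (sh y f) (sh y g) (sh y f).natDegree (sh y g).natDegree
    (sh y)
  rw [map_sh_taylor, map_sh_taylor] at h
  have h2 : ((sh y f).map (Polynomial.C : R σ →+* Polynomial (R σ))).natDegree
      = (sh y f).natDegree := Polynomial.natDegree_map_eq_of_injective Polynomial.C_injective _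
  have h3 : ((sh y g).map (Polynomial.C : R σ →+* Polynomial (R σ))).natDegree
      = (sh y g).natDegree := Polynomial.natDegree_map_eq_of_injective Polynomial.C_injective _
  have h4 := resultant_taylor' ((sh y f).map (Polynomial.C : R σ →+* Polynomial (R σ)))
    ((sh y g).map (Polynomial.C : R σ →+* Polynomial (R σ))) Polynomial.X (sh y g).natDegree
    (by rw [h3])
  rw [h2] at h4
  rw [h4, Polynomial.resultant_map_map] at h
  exact h.symm

end Pool.Agent.Lib.MP_5c1225_ag
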