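import Mathlib

set_option autoImplicit false
set_option linter.unusedSimpArgs false
set_option linter.unnecessarySimpa false

open MvPolynomial

namespace Pool.Agent.Lib.MP_5c1225_ag

variable {σ : Type}

/-- Polynomial ring. -/
abbrev R (σ : Type) := MvPolynomial σ ℂ

/-- `F ↦ F(x + T z)`. -/
noncomputable def sh (z : σ → ℂ) : R σ →+* Polynomial (R σ) :=
  MvPolynomial.eval₂Hom ((Polynomial.C : R σ →+* Polynomial (R σ)).comp (C : ℂ →+* R σ))
    (fun i => Polynomial.C (X i) + Polynomial.C (C (z i)) * Polynomial.X)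

/-- degree in `T` of `F(x + T z)`. -/
noncomputable def K (z : σ → ℂ) (F : R σ) : ℕ := (sh z F).natDegree

/-- `F ↦ F(T x)`. -/
noncomputable def sc : R σ →+* Polynomial (R σ) :=
  MvPolynomial.eval₂Hom ((Polynomial.C : R σ →+* Polynomial (R σ)).comp (C : ℂ →+* R σ))
    (fun i => Polynomial.C (X i) * Polynomial.X)

/-- `F` is homogeneous of degree `d`: `F(T x) = T^d F(x)`. -/
def Hd (d : ℕ) (F : R σ) : Prop := sc F = Polynomial.C F * Polynomial.X ^ d

@[simp] lemma sh_X (z : σ → ℂ) (i : σ) :
    sh z (X i) = Polynomial.C (X i) + Polynomial.C (C (z i)) * Polynomial.X := by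
  simp [sh]

@[simp] lemma sh_C (z : σ → ℂ) (a : ℂ) : sh z (C a) = Polynomial.C (C a) := by
  simp [sh]

@[simp] lemma sc_X (i : σ) : sc (X i : R σ) = Polynomial.C (X i) * Polynomial.X := by
  simp [sc]

@[simp] lemma sc_C (a : ℂ) : sc (C a : R σ) = Polynomial.C (C a) := by
  simp [sc]

lemma sh_coeff_zero (z : σ → ℂ) (F : R σ) : (sh z F).coeff 0 = F := by
  have h : (Polynomial.constantCoeff : Polynomial (R σ) →+* R σ).comp (sh z)
      = RingHom.id _ := by
    apply MvPolynomial.ringHom_ext
    · intro a; simp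
    · intro i; simp
  have := congrArg (fun φ => φ F) h
  simpa using this

lemma sh_injective (z : σ → ℂ) : Function.Injective (sh z : R σ → _) := by
  intro F G h
  rw [← sh_coeff_zero z F, ← sh_coeff_zero z G, h]

lemma sh_ne_zero (z : σ → ℂ) {F : R σ} (h : F ≠ 0) : sh z F ≠ 0 := by
  rwa [Ne, map_eq_zero_iff _ (sh_injective z)]

lemma K_mul (z : σ → ℂ) {F G : R σ} (hF : F ≠ 0) (hG : G ≠ 0) :
    K z (F * G) = K z F + K z G := by
  simp only [K, map_mul]
  exact Polynomial.natDegree_mul (sh_ne_zero z hF) (sh_ne_zero z hG)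

lemma sh_eq_C_of_K (z : σ → ℂ) {F : R σ} (h : K z F = 0) : sh z F = Polynomial.C F := by
  have := Polynomial.eq_C_of_natDegree_eq_zero h
  rw [this, sh_coeff_zero]

lemma K_eq_zero_iff (z : σ → ℂ) (F : R σ) : K z F = 0 ↔ sh z F = Polynomial.C F := by
  refine ⟨sh_eq_C_of_K z, fun h => ?_⟩
  simp [K, h]

@[simp] lemma K_C (z : σ → ℂ) (a : ℂ) : K z (C a : R σ) = 0 := by simp [K]

@[simp] lemma K_zero (z : σ → ℂ) : K z (0 : R σ) = 0 := by simp [K]

lemma K_add_le (z : σ → ℂ) (F G : R σ) : K z (F + G) ≤ max (K z F) (K z G) := by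
  simp only [K, map_add]; exact Polynomial.natDegree_add_le _ _

lemma K_sub_le (z : σ → ℂ) (F G : R σ) : K z (F - G) ≤ max (K z F) (K z G) := by
  simp only [K, map_sub]; exact Polynomial.natDegree_sub_le _ _

lemma K_mul_le (z : σ → ℂ) (F G : R σ) : K z (F * G) ≤ K z F + K z G := by
  simp only [K, map_mul]; exact Polynomial.natDegree_mul_le

lemma K_unit (z : σ → ℂ) {u : R σ} (hu : IsUnit u) : K z u = 0 :=
  Polynomial.natDegree_eq_zero_of_isUnit (hu.map (sh z))

lemma K_associated (z : σ → ℂ) {F G : R σ} (h : Associated F G) : K z F = K z G := by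
  by_cases hF : F = 0
  · subst hF
    have : G = 0 := by simpa using h.symm
    rw [this]
  · obtain ⟨u, rfl⟩ := h
    rw [K_mul z hF u.ne_zero, K_unit z u.isUnit, add_zero]

/-! ### Commutation -/

/-- The substitution `x ↦ x + T y` on polynomials in an extra variable `S`. -/
noncomputable def ext (y : σ → ℂ) : Polynomial (R σ) →+* Polynomial (Polynomial (R σ)) :=
  Polynomial.eval₂RingHom (R := R σ) (S := Polynomial (Polynomial (R σ)))
    ((Polynomial.mapRingHom (Polynomial.C : R σ →+* Polynomial (R σ))).comp (sh y))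
    (Polynomial.C Polynomial.X)

lemma ext_C (y : σ → ℂ) (a : R σ) : ext y (Polynomial.C a) = (sh y a).map Polynomial.C := by
  simp [ext]

lemma ext_X (y : σ → ℂ) : ext y Polynomial.X = Polynomial.C (Polynomial.X : Polynomial (R σ)) := by
  simp [ext]

lemma ext_coeff (y : σ → ℂ) (P : Polynomial (R σ)) (i j : ℕ) :
    ((ext y P).coeff i).coeff j = (sh y (P.coeff j)).coeff i := by
  induction P using Polynomial.induction_on' with
  | add p q hp hq => simp [hp, hq]
  | monomial n a =>
    rw [← Polynomial.C_mul_X_pow_eq_monomial, map_mul, map_pow, ext_C, ext_X, ← map_pow,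
      Polynomial.coeff_mul_C, Polynomial.coeff_map, Polynomial.coeff_C_mul, Polynomial.coeff_X_pow,
      Polynomial.coeff_C_mul, Polynomial.coeff_X_pow]
    by_cases h : j = n
    · subst h; simp
    · simp [h]

lemma map_sh_sh (y z : σ → ℂ) (F : R σ) :
    (sh y F).map (sh z) = ext y (sh z F) := by
  have h : (Polynomial.mapRingHom (sh z)).comp (sh y) = (ext y).comp (sh z) := by
    apply MvPolynomial.ringHom_ext
    · intro a; simp [ext_C]
    · intro i; simp [ext_C, ext_X]; ring
  have := congrArg (fun φ => φ F) h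
  simpa using this

lemma comm_coeff (y z : σ → ℂ) (F : R σ) (i j : ℕ) :
    (sh z ((sh y F).coeff i)).coeff j = (sh y ((sh z F).coeff j)).coeff i := by
  rw [← ext_coeff, ← map_sh_sh, Polynomial.coeff_map]

lemma K_coeff_le (y z : σ → ℂ) (F : R σ) (i : ℕ) : K z ((sh y F).coeff i) ≤ K z F := by
  unfold K
  rw [Polynomial.natDegree_le_iff_coeff_eq_zero]
  intro j hj
  rw [comm_coeff, Polynomial.coeff_eq_zero_of_natDegree_lt hj]; simp

/-! ### Vertex -/

lemma sh_add (y z : σ → ℂ) (F : R σ) :
    sh (y + z) F = ((sh y F).map (sh z)).eval Polynomial.X := by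
  have h : (sh (y + z) : R σ →+* Polynomial (R σ)) =
      ((Polynomial.evalRingHom Polynomial.X).comp
        (Polynomial.mapRingHom (sh z))).comp (sh y) := by
    apply MvPolynomial.ringHom_ext
    · intro a; simp
    · intro i; simp; ring
  have := congrArg (fun φ => φ F) h
  simpa using this

lemma sh_smul (c : ℂ) (z : σ → ℂ) (F : R σ) :
    sh (c • z) F = (sh z F).comp (Polynomial.C (C c) * Polynomial.X) := by
  have h : (sh (c • z) : R σ →+* Polynomial (R σ)) =
      (Polynomial.compRingHom (Polynomial.C (C c) * Polynomial.X)).comp (sh z) := by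
    apply MvPolynomial.ringHom_ext
    · intro a; simp
    · intro i; simp; ring
  have := congrArg (fun φ => φ F) h
  simpa using this

lemma sh_zero (F : R σ) : sh (0 : σ → ℂ) F = Polynomial.C F := by
  have h : (sh (0 : σ → ℂ) : R σ →+* Polynomial (R σ)) = Polynomial.C := by
    apply MvPolynomial.ringHom_ext
    · intro a; simp
    · intro i; simp
  have := congrArg (fun φ => φ F) h
  simpa using this

/-- The space of directions in which `F` is constant. -/
noncomputable def vertex (F : R σ) : Submodule ℂ (σ → ℂ) where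
  carrier := {z | sh z F = Polynomial.C F}
  add_mem' := by
    intro y z (hy : sh y F = Polynomial.C F) (hz : sh z F = Polynomial.C F)
    change sh (y + z) F = Polynomial.C F
    rw [sh_add, hy]; simp [hz]
  zero_mem' := sh_zero F
  smul_mem' := by
    intro c z (hz : sh z F = Polynomial.C F)
    change sh (c • z) F = Polynomial.C F
    rw [sh_smul, hz]; simp

lemma mem_vertex {F : R σ} {z : σ → ℂ} : z ∈ vertex F ↔ K z F = 0 := by
  rw [K_eq_zero_iff]; rfl

/-- evaluation -/
lemma eval_sh (z a : σ → ℂ) (t : ℂ) (F : R σ) :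
    MvPolynomial.eval a ((sh z F).eval (C t)) = MvPolynomial.eval (a + t • z) F := by
  have h : ((MvPolynomial.eval a).comp (Polynomial.evalRingHom (C t))).comp (sh z) =
      MvPolynomial.eval (a + t • z) := by
    apply MvPolynomial.ringHom_ext
    · intro a; simp
    · intro i; simp; ring
  have := congrArg (fun φ => φ F) h
  simpa using this

lemma eq_C_of_vertex_top {F : R σ} (h : vertex F = ⊤) : F = C (MvPolynomial.eval 0 F) := by
  apply MvPolynomial.funext
  intro a
  have ha : a ∈ vertex F := by rw [h]; trivial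
  have h1 : sh a F = Polynomial.C F := ha
  have h2 := eval_sh a 0 1 F
  rw [h1] at h2
  simpa using h2.symm

/-! ### Homogeneity -/

lemma sc_injective : Function.Injective (sc : R σ → _) := by
  have h : (Polynomial.evalRingHom (1 : R σ)).comp (sc : R σ →+* _) = RingHom.id _ := by
    apply MvPolynomial.ringHom_ext
    · intro a; simp
    · intro i; simp
  have h' : ∀ F : R σ, Polynomial.eval 1 (sc F) = F := fun F => by
    have := congrArg (fun φ => φ F) h
    simpa using this
  intro F G hFG
  rw [← h' F, ← h' G, hFG]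

lemma sc_eval_one (F : R σ) : Polynomial.eval 1 (sc F) = F := by
  have h : (Polynomial.evalRingHom (1 : R σ)).comp (sc : R σ →+* _) = RingHom.id _ := by
    apply MvPolynomial.ringHom_ext
    · intro a; simp
    · intro i; simp
  have := congrArg (fun φ => φ F) h
  simpa using this

lemma Hd.mul {d e : ℕ} {F G : R σ} (hF : Hd d F) (hG : Hd e G) : Hd (d + e) (F * G) := by
  unfold Hd at *
  rw [map_mul, hF, hG, map_mul, pow_add]; ring

lemma Hd.sub {d : ℕ} {F G : R σ} (hF : Hd d F) (hG : Hd d G) : Hd d (F - G) := by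
  unfold Hd at *
  rw [map_sub, hF, hG, map_sub]; ring

lemma Hd.unique {d e : ℕ} {F : R σ} (h0 : F ≠ 0) (hF : Hd d F) (hG : Hd e F) : d = e := by
  unfold Hd at *
  rw [hF] at hG
  have := congrArg Polynomial.natDegree hG
  rwa [Polynomial.natDegree_C_mul_X_pow _ _ h0, Polynomial.natDegree_C_mul_X_pow _ _ h0] at this

lemma Hd_C (a : ℂ) : Hd 0 (C a : R σ) := by simp [Hd]

/-- A weighted homogeneity condition which avoids subtraction. -/
lemma Hd_of_mul {a b : ℕ} {F : R σ} (h0 : F ≠ 0)
    (h : sc F * Polynomial.X ^ a = Polynomial.C F * Polynomial.X ^ b) : a ≤ b ∧ Hd (b - a) F := by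
  have hab : a ≤ b := by
    by_contra hlt
    push Not at hlt
    have h1 : (sc F * Polynomial.X ^ a).coeff b = 0 := by
      rw [Polynomial.coeff_mul_X_pow']; simp [Nat.not_le.mpr hlt]
    rw [h] at h1
    simp at h1
    exact h0 h1
  refine ⟨hab, ?_⟩
  have hX : (Polynomial.X ^ a : Polynomial (R σ)) ≠ 0 := pow_ne_zero _ Polynomial.X_ne_zero
  apply mul_right_cancel₀ hX
  rw [h, mul_assoc, ← pow_add, Nat.sub_add_cancel hab]

/-- The substitution `x ↦ x + T z` followed by ... -/
lemma sc_sh (z : σ → ℂ) (F : R σ) :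
    ((sh z F).map sc).comp (Polynomial.C Polynomial.X * Polynomial.X) =
      ext z (sc F) := by
  have h : ((Polynomial.compRingHom (Polynomial.C Polynomial.X * Polynomial.X)).comp
      (Polynomial.mapRingHom sc)).comp (sh z) = (ext z).comp sc := by
    apply MvPolynomial.ringHom_ext
    · intro a; simp [ext_C]
    · intro i; simp [ext_C, ext_X]; ring
  have := congrArg (fun φ => φ F) h
  simpa using this

lemma sc_coeff {d : ℕ} {F : R σ} (hF : Hd d F) (z : σ → ℂ) (j : ℕ) :
    sc ((sh z F).coeff j) * Polynomial.X ^ j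
      = Polynomial.C ((sh z F).coeff j) * Polynomial.X ^ d := by
  have h := sc_sh z F
  rw [hF, map_mul, map_pow, ext_C, ext_X, ← map_pow] at h
  have h2 := congrArg (fun P => P.coeff j) h
  simp only [Polynomial.comp_C_mul_X_coeff, Polynomial.coeff_map, Polynomial.coeff_mul_C] at h2
  exact h2

lemma Hd_coeff {d : ℕ} {F : R σ} (hF : Hd d F) (z : σ → ℂ) (j : ℕ)
    (h0 : (sh z F).coeff j ≠ 0) : j ≤ d ∧ Hd (d - j) ((sh z F).coeff j) :=
  Hd_of_mul h0 (sc_coeff hF z j)

lemma K_le_of_Hd {d : ℕ} {F : R σ} (hF : Hd d F) (z : σ → ℂ) : K z F ≤ d := by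
  unfold K
  rw [Polynomial.natDegree_le_iff_coeff_eq_zero]
  intro j hj
  by_contra h0
  have := (Hd_coeff hF z j h0).1
  omega

/-- factors of homogeneous polynomials are homogeneous -/
lemma Hd_of_mul_left {d : ℕ} {F G : R σ} (hF : F ≠ 0) (hG : G ≠ 0) (h : Hd d (F * G)) :
    ∃ a, Hd a F := by
  unfold Hd at h
  rw [map_mul] at h
  have hsF : sc F ≠ 0 := by rwa [Ne, map_eq_zero_iff _ sc_injective]
  have hsG : sc G ≠ 0 := by rwa [Ne, map_eq_zero_iff _ sc_injective]
  have h1 : (sc F).natDegree + (sc G).natDegree = d := by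
    rw [← Polynomial.natDegree_mul hsF hsG, h, Polynomial.natDegree_C_mul_X_pow]
    exact mul_ne_zero hF hG
  have h2 : (sc F).natTrailingDegree + (sc G).natTrailingDegree = d := by
    rw [← Polynomial.natTrailingDegree_mul hsF hsG, h, Polynomial.C_mul_X_pow_eq_monomial,
      Polynomial.natTrailingDegree_monomial (mul_ne_zero hF hG)]
  have h3 := Polynomial.natTrailingDegree_le_natDegree (sc F)
  have h4 := Polynomial.natTrailingDegree_le_natDegree (sc G)
  have h5 : (sc F).natTrailingDegree = (sc F).natDegree := by omega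
  refine ⟨(sc F).natDegree, ?_⟩
  have h6 : sc F = Polynomial.C ((sc F).coeff (sc F).natDegree) *
      Polynomial.X ^ (sc F).natDegree := by
    ext1 j
    rw [Polynomial.coeff_C_mul, Polynomial.coeff_X_pow]
    by_cases hj : j = (sc F).natDegree
    · subst hj; simp
    · simp only [hj, if_false, mul_zero]
      rcases Nat.lt_or_gt_of_ne hj with hlt | hgt
      · exact Polynomial.coeff_eq_zero_of_lt_natTrailingDegree (by omega)
      · exact Polynomial.coeff_eq_zero_of_natDegree_lt hgt
  have h7 : (sc F).coeff (sc F).natDegree = F := by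
    have := sc_eval_one F
    rw [h6] at this
    simpa using this
  unfold Hd
  rw [h7] at h6
  exact h6

end Pool.Agent.Lib.MP_5c1225_ag
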